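import Pool.Agent.Lib.H63RA.Defs

/-! CHUNK A: closure properties of Følner amenability. All statements elementary. -/

set_option autoImplicit false

namespace Pool.Agent.H63RA

open Finset Filter Topology

/-! ### Reformulation by counting -/

section count

variable {G : Type} [Group G]

open Classical in
theorem A_ncard (s : G) (F : Finset G) :
    (((fun x : G => s * x) '' (F : Set G)) \ (F : Set G)).ncard =
      (F.filter fun x => s * x ∉ F).card := by
  have h : ((fun x : G => s * x) '' (F : Set G)) \ (F : Set G) =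
      (((F.filter fun x => s * x ∉ F).image fun x => s * x : Finset G) : Set G) := by
    ext y
    simp only [Set.mem_sdiff, Set.mem_image, Finset.mem_coe, Finset.coe_image, Finset.coe_filter,
      Set.mem_ofPred_eq]
    constructor
    · rintro ⟨⟨x, hx, rfl⟩, hy⟩
      exact ⟨x, ⟨hx, hy⟩, rfl⟩
    · rintro ⟨x, ⟨hx, hy⟩, rfl⟩
      exact ⟨⟨x, hx, rfl⟩, hy⟩
  rw [h, Set.ncard_coe_finset, Finset.card_image_of_injective _ (mul_right_injective s)]

open Classical in
theorem A_use (hG : Amen G) (S : Finset G) {ε : ℝ} (hε : 0 < ε) :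
    ∃ F : Finset G, F.Nonempty ∧ ∀ s ∈ S, ∀ _ : DecidablePred fun x => s * x ∉ F,
      ((F.filter fun x => s * x ∉ F).card : ℝ) < ε * F.card := by
  obtain ⟨F, hF, h⟩ := hG S ε hε
  refine ⟨F, hF, fun s hs inst => ?_⟩
  have h1 := h s hs
  rw [A_ncard] at h1
  have h2 : ∀ i1 i2 : DecidablePred fun x => s * x ∉ F,
      (@Finset.filter G (fun x => s * x ∉ F) i1 F).card =
        (@Finset.filter G (fun x => s * x ∉ F) i2 F).card := by
    intro i1 i2
    rw [Subsingleton.elim i1 i2]
  rw [h2 _ inst] at h1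
  exact h1

open Classical in
theorem A_intro (h : ∀ (S : Finset G) (ε : ℝ), 0 < ε → ∃ F : Finset G, F.Nonempty ∧
    ∀ s ∈ S, ((F.filter fun x => s * x ∉ F).card : ℝ) < ε * F.card) : Amen G := by
  intro S ε hε
  obtain ⟨F, hF, h⟩ := h S ε hε
  refine ⟨F, hF, fun s hs => ?_⟩
  rw [A_ncard]
  exact h s hs

end count

open Classical in
/-- Subgroups. Cut a Følner set of `H` into right cosets `(range f) h_i`, average over the pieces. -/
theorem Amen.of_injective {G H : Type} [Group G] [Group H] (hH : Amen H) (f : G →* H)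
    (hf : Function.Injective f) : Amen G := by
  apply A_intro
  intro S ε hε
  have hS1 : (0 : ℝ) < S.card + 1 := by positivity
  obtain ⟨F, hF, hFS⟩ := A_use hH (S.image f) (ε := ε / (S.card + 1)) (by positivity)
  set π : H → Quotient (QuotientGroup.rightRel f.range) := fun x => Quotient.mk _ x with hπ
  have hπeq : ∀ x y, π x = π y ↔ ∃ g, f g = y * x⁻¹ := by
    intro x y
    simp only [hπ]
    rw [Quotient.eq, QuotientGroup.rightRel_apply]
    rfl
  have hπs : ∀ s x, π (f s * x) = π x := by
    intro s x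
    rw [eq_comm, hπeq]
    exact ⟨s, by group⟩
  -- total boundary
  have htot : ∑ s ∈ S, ((F.filter fun x => f s * x ∉ F).card : ℝ) < ε * F.card := by
    have h1 : ∑ s ∈ S, ((F.filter fun x => f s * x ∉ F).card : ℝ) ≤
        ∑ _s ∈ S, ε / (S.card + 1) * F.card :=
      Finset.sum_le_sum fun s hs => (hFS (f s) (Finset.mem_image_of_mem f hs) _).le
    rw [Finset.sum_const, nsmul_eq_mul] at h1
    refine lt_of_le_of_lt h1 ?_
    have hFc : (0 : ℝ) < F.card := by exact_mod_cast hF.card_pos
    rw [show (S.card : ℝ) * (ε / (S.card + 1) * F.card) =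
      ε * F.card * (S.card / (S.card + 1)) by ring]
    have h2 : (S.card : ℝ) / (S.card + 1) < 1 := by
      rw [div_lt_one hS1]
      linarith
    nlinarith [mul_pos hε hFc]
  -- a good class
  obtain ⟨q, hq, hq'⟩ : ∃ q ∈ F.image π, ∑ s ∈ S,
      (((F.filter fun x => f s * x ∉ F).filter fun x => π x = q).card : ℝ) <
      ε * (F.filter fun x => π x = q).card := by
    by_contra hcon
    push Not at hcon
    have h1 := Finset.sum_le_sum hcon
    rw [Finset.sum_comm, ← Finset.mul_sum] at h1
    have h2 : ∑ q ∈ F.image π, ((F.filter fun x => π x = q).card : ℝ) = F.card := by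
      rw [← Nat.cast_sum]
      congr 1
      exact (Finset.card_eq_sum_card_fiberwise fun x hx => Finset.mem_image_of_mem π hx).symm
    have h3 : ∀ s ∈ S, ∑ q ∈ F.image π,
        (((F.filter fun x => f s * x ∉ F).filter fun x => π x = q).card : ℝ) =
        (F.filter fun x => f s * x ∉ F).card := by
      intro s _
      rw [← Nat.cast_sum]
      congr 1
      exact (Finset.card_eq_sum_card_fiberwise fun x hx =>
        Finset.mem_image_of_mem π (Finset.mem_filter.1 hx).1).symm
    rw [h2, Finset.sum_congr rfl h3] at h1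
    linarith
  obtain ⟨x0, hx0, rfl⟩ := Finset.mem_image.1 hq
  -- the Følner set
  have hinj : Function.Injective fun g : G => f g * x0 := fun a b hab =>
    hf (mul_right_cancel hab)
  set F' : Finset G := F.preimage (fun g : G => f g * x0) hinj.injOn with hF'
  have hmem : ∀ g, g ∈ F' ↔ f g * x0 ∈ F := by
    intro g
    rw [hF', Finset.mem_preimage]
  have himg : F'.image (fun g : G => f g * x0) = F.filter fun x => π x = π x0 := by
    ext y
    simp only [Finset.mem_image, Finset.mem_filter]
    constructor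
    · rintro ⟨g, hg, rfl⟩
      exact ⟨(hmem g).1 hg, hπs g x0⟩
    · rintro ⟨hy, hy'⟩
      obtain ⟨g, hg⟩ := (hπeq x0 y).1 hy'.symm
      have e : f g * x0 = y := by rw [hg]; group
      exact ⟨g, (hmem g).2 (by rw [e]; exact hy), e⟩
  have hcard : F'.card = (F.filter fun x => π x = π x0).card := by
    rw [← himg, Finset.card_image_of_injective _ hinj]
  have hcard2 : ∀ s, (F'.filter fun g => s * g ∉ F').card =
      ((F.filter fun x => f s * x ∉ F).filter fun x => π x = π x0).card := by
    intro s
    rw [← Finset.card_image_of_injective (F'.filter fun g => s * g ∉ F') hinj]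
    congr 1
    ext y
    simp only [Finset.mem_image, Finset.mem_filter, hmem]
    constructor
    · rintro ⟨g, ⟨hg, hg'⟩, rfl⟩
      refine ⟨⟨hg, ?_⟩, hπs g x0⟩
      rw [← mul_assoc, ← map_mul]
      exact hg'
    · rintro ⟨⟨hy, hy2⟩, hy'⟩
      obtain ⟨g, hg⟩ := (hπeq x0 y).1 hy'.symm
      have e : f g * x0 = y := by rw [hg]; group
      refine ⟨g, ⟨by rw [e]; exact hy, ?_⟩, e⟩
      rw [map_mul, mul_assoc, e]
      exact hy2
  refine ⟨F', ?_, fun s hs => ?_⟩
  · rw [← Finset.card_pos, hcard, Finset.card_pos]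
    exact ⟨x0, Finset.mem_filter.2 ⟨hx0, rfl⟩⟩
  · rw [hcard2, hcard]
    refine lt_of_le_of_lt ?_ hq'
    exact Finset.single_le_sum (f := fun s =>
      (((F.filter fun x => f s * x ∉ F).filter fun x => π x = π x0).card : ℝ))
      (fun s _ => Nat.cast_nonneg _) hs

open Classical in
/-- Extensions. Følner set `{q̃ n : q ∈ F_Q, n ∈ F_N}`, with `F_N` Følner for the finitely many
elements `(lift of s̄q)⁻¹ s q̃ ∈ ker f`. (Only the range of `f` matters: use `of_injective`.) -/
theorem Amen.of_ext {G Q : Type} [Group G] [Group Q] (f : G →* Q) (hK : Amen f.ker)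
    (hQ : Amen Q) : Amen G := by
  have hR : Amen f.range := hQ.of_injective f.range.subtype f.range.subtype_injective
  have hsurj : ∀ q : f.range, ∃ g : G, f.rangeRestrict g = q := fun q =>
    f.rangeRestrict_surjective q
  choose σ hσ using hsurj
  apply A_intro
  intro S ε hε
  obtain ⟨FQ, hFQ, hFQS⟩ := A_use hR (S.image f.rangeRestrict) (half_pos hε)
  have hker : ∀ (s : G) (q : f.range), (σ (f.rangeRestrict s * q))⁻¹ * (s * σ q) ∈ f.ker := by
    intro s q
    have h : f.rangeRestrict ((σ (f.rangeRestrict s * q))⁻¹ * (s * σ q)) = 1 := by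
      rw [map_mul, map_inv, map_mul, hσ, hσ, inv_mul_cancel]
    rw [MonoidHom.mem_ker]
    have h2 := congrArg Subtype.val h
    simpa using h2
  set k : G → f.range → f.ker := fun s q => ⟨_, hker s q⟩ with hk
  obtain ⟨FN, hFN, hFNS⟩ := A_use hK ((S ×ˢ FQ).image fun p => k p.1 p.2) (half_pos hε)
  have hinj : Function.Injective fun p : f.range × f.ker => σ p.1 * (p.2 : G) := by
    rintro ⟨q, n⟩ ⟨q', n'⟩ h
    simp only at h
    have h1 : q = q' := by
      have h2 := congrArg f.rangeRestrict h
      have h3 : ∀ n : f.ker, f.rangeRestrict (n : G) = 1 := by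
        intro n
        apply Subtype.ext
        exact n.2
      rw [map_mul, map_mul, hσ, hσ, h3, h3, mul_one, mul_one] at h2
      exact h2
    subst h1
    have h2 : (n : G) = n' := mul_left_cancel h
    rw [Subtype.ext h2]
  set F : Finset G := (FQ ×ˢ FN).image fun p : f.range × f.ker => σ p.1 * (p.2 : G) with hF
  have hcard : F.card = FQ.card * FN.card := by
    rw [hF, Finset.card_image_of_injective _ hinj, Finset.card_product]
  have hQc : (0 : ℝ) < FQ.card := by exact_mod_cast hFQ.card_pos
  have hNc : (0 : ℝ) < FN.card := by exact_mod_cast hFN.card_pos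
  refine ⟨F, (hFQ.product hFN).image _, fun s hs => ?_⟩
  -- the bad pairs
  have hsub : F.filter (fun x => s * x ∉ F) ⊆
      (((FQ.filter fun q => f.rangeRestrict s * q ∉ FQ) ×ˢ FN) ∪
        FQ.biUnion fun q => (FN.filter fun n => k s q * n ∉ FN).image fun n => (q, n)).image
        fun p : f.range × f.ker => σ p.1 * (p.2 : G) := by
    intro x hx
    rw [Finset.mem_filter] at hx
    obtain ⟨hx1, hx2⟩ := hx
    rw [hF, Finset.mem_image] at hx1
    obtain ⟨⟨q, n⟩, hqn, rfl⟩ := hx1
    rw [Finset.mem_product] at hqn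
    rw [Finset.mem_image]
    refine ⟨(q, n), ?_, rfl⟩
    rw [Finset.mem_union]
    by_contra hcon
    push Not at hcon
    obtain ⟨h1, h2⟩ := hcon
    have h3 : f.rangeRestrict s * q ∈ FQ := by
      by_contra h4
      exact h1 (Finset.mem_product.2 ⟨Finset.mem_filter.2 ⟨hqn.1, h4⟩, hqn.2⟩)
    have h5 : k s q * n ∈ FN := by
      by_contra h4
      exact h2 (Finset.mem_biUnion.2 ⟨q, hqn.1, Finset.mem_image.2
        ⟨n, Finset.mem_filter.2 ⟨hqn.2, h4⟩, rfl⟩⟩)
    apply hx2
    rw [hF, Finset.mem_image]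
    refine ⟨(f.rangeRestrict s * q, k s q * n), Finset.mem_product.2 ⟨h3, h5⟩, ?_⟩
    simp only [hk, Subgroup.coe_mul]
    group
  have hle : ((F.filter fun x => s * x ∉ F).card : ℝ) ≤
      ((FQ.filter fun q => f.rangeRestrict s * q ∉ FQ).card : ℝ) * FN.card +
        ∑ q ∈ FQ, ((FN.filter fun n => k s q * n ∉ FN).card : ℝ) := by
    have h1 := (Finset.card_le_card hsub).trans
      (Finset.card_image_le.trans (Finset.card_union_le _ _))
    have h2 : (FQ.biUnion fun q => (FN.filter fun n => k s q * n ∉ FN).image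
        fun n => ((q, n) : f.range × f.ker)).card ≤
        ∑ q ∈ FQ, (FN.filter fun n => k s q * n ∉ FN).card :=
      Finset.card_biUnion_le.trans (Finset.sum_le_sum fun q _ => Finset.card_image_le)
    rw [Finset.card_product] at h1
    exact_mod_cast h1.trans (Nat.add_le_add_left h2 _)
  have h1 : ((FQ.filter fun q => f.rangeRestrict s * q ∉ FQ).card : ℝ) < ε / 2 * FQ.card :=
    hFQS (f.rangeRestrict s) (Finset.mem_image_of_mem _ hs) _
  have h2 : ∑ q ∈ FQ, ((FN.filter fun n => k s q * n ∉ FN).card : ℝ) ≤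
      ∑ _q ∈ FQ, ε / 2 * FN.card := by
    refine Finset.sum_le_sum fun q hq => ?_
    exact (hFNS (k s q) (Finset.mem_image.2 ⟨(s, q), Finset.mem_product.2 ⟨hs, hq⟩, rfl⟩) _).le
  rw [Finset.sum_const, nsmul_eq_mul] at h2
  rw [hcard]
  push_cast
  have h3 : ((FQ.filter fun q => f.rangeRestrict s * q ∉ FQ).card : ℝ) * FN.card <
      ε / 2 * FQ.card * FN.card := mul_lt_mul_of_pos_right h1 hNc
  nlinarith

/-- Amenability is local. -/
theorem Amen.of_local {G : Type} [Group G]
    (h : ∀ S : Finset G, ∃ K : Subgroup G, (∀ s ∈ S, s ∈ K) ∧ Amen K) : Amen G := by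
  classical
  apply A_intro
  intro S ε hε
  obtain ⟨K, hSK, hK⟩ := h S
  have hex := A_use hK (S.attach.image fun s => (⟨s.1, hSK s.1 s.2⟩ : K)) hε
  obtain ⟨F, hF, hFS⟩ := hex
  have hinj : Function.Injective (fun x : K => (x : G)) := Subtype.val_injective
  refine ⟨F.image fun x : K => (x : G), hF.image _, fun s hs => ?_⟩
  have h1 : ((F.filter fun x => (⟨s, hSK s hs⟩ : K) * x ∉ F).card : ℝ) < ε * F.card :=
    hFS ⟨s, hSK s hs⟩ (Finset.mem_image.2 ⟨⟨s, hs⟩, Finset.mem_attach _ _, rfl⟩) _
  rw [Finset.card_image_of_injective _ hinj]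
  refine lt_of_le_of_lt ?_ h1
  rw [← Finset.card_image_of_injective (F.filter fun x => (⟨s, hSK s hs⟩ : K) * x ∉ F) hinj]
  apply Nat.cast_le.2
  apply Finset.card_le_card
  intro y hy
  rw [Finset.mem_filter, Finset.mem_image] at hy
  obtain ⟨⟨x, hx, rfl⟩, hy2⟩ := hy
  refine Finset.mem_image.2 ⟨x, Finset.mem_filter.2 ⟨hx, fun hcon => hy2 ?_⟩, rfl⟩
  exact Finset.mem_image.2 ⟨_, hcon, rfl⟩

theorem Amen.prod {G H : Type} [Group G] [Group H] (hG : Amen G) (hH : Amen H) :
    Amen (G × H) := by
  refine Amen.of_ext (MonoidHom.snd G H) ?_ hH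
  refine hG.of_injective ((MonoidHom.fst G H).comp (MonoidHom.snd G H).ker.subtype) ?_
  rintro ⟨⟨a, b⟩, h⟩ ⟨⟨a', b'⟩, h'⟩ hab
  have h1 : b = 1 := h
  have h2 : b' = 1 := h'
  have h3 : a = a' := hab
  subst h1 h2 h3
  rfl

theorem Amen.pi {ι : Type} [Finite ι] {G : Type} [Group G] (hG : Amen G) : Amen (ι → G) := by
  refine Finite.induction_empty_option (P := fun ι : Type => Amen (ι → G)) ?_ ?_ ?_ ι
  · intro α β e h
    refine h.of_injective
      { toFun := fun x i => x (e i), map_one' := rfl, map_mul' := fun _ _ => rfl } ?_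
    intro x y hxy
    funext j
    have := congrFun hxy (e.symm j)
    simpa using this
  · refine hG.of_injective (1 : (PEmpty → G) →* G) ?_
    intro x y _
    funext i
    exact i.elim
  · intro α _ h
    refine (h.prod hG).of_injective
      { toFun := fun x => (fun i => x (some i), x none), map_one' := rfl,
        map_mul' := fun _ _ => rfl } ?_
    intro x y hxy
    funext i
    have h1 := congrArg Prod.fst hxy
    have h2 := congrArg Prod.snd hxy
    rcases i with _ | i
    · exact h2
    · exact congrFun h1 i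

open Classical in
/-- Abelian groups: `F_n = {∏ s_i^{a_i} : 0 ≤ a_i < n}` has polynomial growth. -/
theorem Amen.of_comm {G : Type} [CommGroup G] : Amen G := by
  apply A_intro
  intro S ε hε
  set P : (S → ℕ) → G := fun a => ∏ s : S, (s : G) ^ a s with hP
  set F : ℕ → Finset G := fun n => (Fintype.piFinset fun _ : S => Finset.range n).image P with hF
  have hcard : ∀ n, (F n).card ≤ n ^ S.card := by
    intro n
    refine Finset.card_image_le.trans ?_
    rw [Fintype.card_piFinset]
    simp
  have hmono : ∀ n, F n ⊆ F (n + 1) := by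
    intro n
    refine Finset.image_subset_image fun a ha => ?_
    rw [Fintype.mem_piFinset] at ha ⊢
    intro s
    have := Finset.mem_range.1 (ha s)
    exact Finset.mem_range.2 (by omega)
  have hshift : ∀ n, ∀ s ∈ S, ∀ x ∈ F n, s * x ∈ F (n + 1) := by
    intro n s hs x hx
    rw [hF, Finset.mem_image] at hx ⊢
    obtain ⟨a, ha, rfl⟩ := hx
    rw [Fintype.mem_piFinset] at ha
    refine ⟨Function.update a ⟨s, hs⟩ (a ⟨s, hs⟩ + 1), ?_, ?_⟩
    · rw [Fintype.mem_piFinset]
      intro t
      by_cases ht : t = ⟨s, hs⟩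
      · subst ht
        rw [Function.update_self]
        have := Finset.mem_range.1 (ha ⟨s, hs⟩)
        exact Finset.mem_range.2 (by omega)
      · rw [Function.update_of_ne ht]
        have := Finset.mem_range.1 (ha t)
        exact Finset.mem_range.2 (by omega)
    · simp only [hP]
      rw [← Finset.mul_prod_erase _ _ (Finset.mem_univ (⟨s, hs⟩ : S)),
        ← Finset.mul_prod_erase _ (fun t : S => (t : G) ^ a t) (Finset.mem_univ (⟨s, hs⟩ : S)),
        Function.update_self, pow_succ', mul_assoc]
      congr 2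
      refine Finset.prod_congr rfl fun t ht => ?_
      rw [Function.update_of_ne (Finset.ne_of_mem_erase ht)]
  have h1 : (F 1).Nonempty := by
    refine Finset.Nonempty.image ⟨fun _ => 0, ?_⟩ _
    rw [Fintype.mem_piFinset]
    intro s
    simp
  have hne : ∀ n, (F (n + 1)).Nonempty := by
    intro n
    induction n with
    | zero => exact h1
    | succ n ih => exact ih.mono (hmono _)
  -- slow growth somewhere
  obtain ⟨n, hn⟩ : ∃ n, ((F (n + 2)).card : ℝ) < (1 + ε) * (F (n + 1)).card := by
    by_contra hcon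
    push Not at hcon
    have hgrow : ∀ n : ℕ, (1 + ε) ^ n ≤ ((F (n + 1)).card : ℝ) := by
      intro n
      induction n with
      | zero =>
        have := h1.card_pos
        rw [pow_zero]
        exact_mod_cast this
      | succ n ih =>
        rw [pow_succ']
        exact (mul_le_mul_of_nonneg_left ih (by linarith)).trans (hcon n)
    have hle : ∀ n : ℕ, (1 + ε) ^ n ≤ ((n + 1 : ℕ) : ℝ) ^ S.card := fun n =>
      (hgrow n).trans (by exact_mod_cast hcard (n + 1))
    have hlim := tendsto_pow_const_div_const_pow_of_one_lt S.card (by linarith : 1 < 1 + ε)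
    have hev := hlim.eventually (gt_mem_nhds (by positivity : (0 : ℝ) < 1 / (1 + ε)))
    obtain ⟨N, hN⟩ := hev.exists_forall_of_atTop
    have h2 := hN (N + 1) (by omega)
    have h3 := hle N
    have hp : (0 : ℝ) < (1 + ε) ^ (N + 1) := by positivity
    rw [div_lt_div_iff₀ hp (by linarith), one_mul] at h2
    have h4 : (1 + ε) ^ (N + 1) ≤ ((N + 1 : ℕ) : ℝ) ^ S.card * (1 + ε) := by
      rw [pow_succ]
      exact mul_le_mul_of_nonneg_right h3 (by linarith)
    linarith
  refine ⟨F (n + 1), hne n, fun s hs => ?_⟩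
  have hsub : ((F (n + 1)).filter fun x => s * x ∉ F (n + 1)).image (fun x => s * x) ⊆
      F (n + 2) \ F (n + 1) := by
    intro y hy
    rw [Finset.mem_image] at hy
    obtain ⟨x, hx, rfl⟩ := hy
    rw [Finset.mem_filter] at hx
    exact Finset.mem_sdiff.2 ⟨hshift _ s hs x hx.1, hx.2⟩
  have h2 := Finset.card_le_card hsub
  rw [Finset.card_image_of_injective _ (mul_right_injective s),
    Finset.card_sdiff_of_subset (hmono (n + 1))] at h2
  have h3 := Finset.card_le_card (hmono (n + 1))
  have h4 : (((F (n + 1)).filter fun x => s * x ∉ F (n + 1)).card : ℝ) ≤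
      (F (n + 2)).card - (F (n + 1)).card := by
    rw [← Nat.cast_sub h3]
    exact_mod_cast h2
  linarith

theorem Amen.semidirect {N G : Type} [Group N] [Group G] (φ : G →* MulAut N) (hN : Amen N)
    (hG : Amen G) : Amen (N ⋊[φ] G) := by
  refine Amen.of_ext (SemidirectProduct.rightHom (φ := φ)) ?_ hG
  refine hN.of_injective
    { toFun := fun x => x.1.left
      map_one' := rfl
      map_mul' := ?_ } ?_
  · rintro ⟨x, hx⟩ ⟨y, hy⟩
    have h1 : x.right = 1 := hx
    change (x * y).left = x.left * y.left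
    rw [SemidirectProduct.mul_left, h1, map_one, MulAut.one_apply]
  · rintro ⟨x, hx⟩ ⟨y, hy⟩ hxy
    have h1 : x.right = 1 := hx
    have h2 : y.right = 1 := hy
    have h3 : x.left = y.left := hxy
    apply Subtype.ext
    exact SemidirectProduct.ext h3 (h1.trans h2.symm)

end Pool.Agent.H63RA
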