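import Pool.Agent.Lib.H63RA.Amen

/-! CHUNK T: one step of the Magnus tower. -/

set_option autoImplicit false

open HNNExtension

namespace Pool.Agent.H63RA

variable {H : Type} [Group H] {A B : Subgroup H} {φ : A ≃* B}

namespace TStep

variable {Γ : Type} [Group Γ] (f : HNNExtension H A B φ →* Γ)

/-- The image of `B`. -/
abbrev Bb : Subgroup Γ := B.map (f.comp of)

/-- The cosets of the image of `B`. -/
abbrev Q : Type := Γ ⧸ Bb f

/-- The overgroup. -/
abbrev G' : Type := (Q f → Multiplicative ℤ) ⋊[mulAutArrow] Γ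

open Classical in
/-- `δ_q` (multiplicative notation). -/
noncomputable def dl (q : Q f) : Q f → Multiplicative ℤ :=
  fun x => if x = q then Multiplicative.ofAdd 1 else 1

lemma arrow_apply (g : Γ) (F : Q f → Multiplicative ℤ) (x : Q f) :
    (mulAutArrow g : MulAut (Q f → Multiplicative ℤ)) F x = F (g⁻¹ • x) := rfl

lemma arrow_dl (g : Γ) (q : Q f) :
    (mulAutArrow g : MulAut (Q f → Multiplicative ℤ)) (dl f q) = dl f (g • q) := by
  funext x
  rw [arrow_apply, dl, dl]
  have : g⁻¹ • x = q ↔ x = g • q := by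
    constructor
    · rintro rfl; rw [smul_inv_smul]
    · rintro rfl; rw [inv_smul_smul]
  by_cases hx : x = g • q
  · rw [if_pos (this.2 hx), if_pos hx]
  · rw [if_neg (fun h => hx (this.1 h)), if_neg hx]

lemma smul_base (b : B) :
    f (of (b : H)) • ((1 : Γ) : Q f) = ((1 : Γ) : Q f) := by
  change (((f (of (b : H)) * 1 : Γ)) : Q f) = ((1 : Γ) : Q f)
  rw [mul_one, QuotientGroup.eq, mul_one]
  exact (Bb f).inv_mem ⟨b, b.2, rfl⟩

/-- The lift. -/
noncomputable def f' : HNNExtension H A B φ →* G' f :=
  HNNExtension.lift (SemidirectProduct.inr.comp (f.comp of))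
    ⟨dl f ((1 : Γ) : Q f), f t⟩ (by
      intro a
      refine SemidirectProduct.ext ?_ ?_
      · simp only [MonoidHom.comp_apply, SemidirectProduct.mul_left, SemidirectProduct.left_inr,
          SemidirectProduct.right_inr, map_one, mul_one, one_mul]
        rw [arrow_dl, smul_base]
      · simp only [MonoidHom.comp_apply, SemidirectProduct.mul_right,
          SemidirectProduct.right_inr]
        rw [← map_mul, t_mul_of, map_mul])

lemma f'_of (h : H) : f' f (of h) = SemidirectProduct.inr (f (of h)) := by
  rw [f', lift_of]; rfl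

lemma f'_t : f' f t = ⟨dl f ((1 : Γ) : Q f), f t⟩ := by
  rw [f', lift_t]

lemma right_f' (x : HNNExtension H A B φ) : (f' f x).right = f x := by
  have : (SemidirectProduct.rightHom (G := Γ)).comp (f' f) = f := by
    refine HNNExtension.hom_ext ?_ ?_
    · ext h
      simp [f'_of]
    · simp [f'_t]
  exact DFunLike.congr_fun this x

/-- The position of the contribution of a letter. -/
def pos (u : ℤˣ) : Q f := if u = 1 then ((1 : Γ) : Q f) else ((f t)⁻¹ : Γ)

lemma pos_one : pos f 1 = ((1 : Γ) : Q f) := if_pos rfl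

lemma pos_neg_one : pos f (-1) = (((f t)⁻¹ : Γ) : Q f) := if_neg (by decide)

open Classical in

lemma left_letter (u : ℤˣ) (g : H) (q : Q f) :
    Multiplicative.toAdd ((f' f (t ^ (u : ℤ) * of g)).left q)
      = if pos f u = q then (u : ℤ) else 0 := by
  rcases Int.units_eq_one_or u with rfl | rfl
  · have : (f' f (t ^ ((1 : ℤˣ) : ℤ) * of g)).left = dl f ((1 : Γ) : Q f) := by
      rw [map_mul, f'_of]
      simp [f'_t]
    rw [this, dl, pos_one]
    by_cases hq : q = ((1 : Γ) : Q f)
    · rw [if_pos hq, if_pos hq.symm]; rfl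
    · rw [if_neg hq, if_neg (fun h => hq h.symm)]; rfl
  · have : (f' f (t ^ ((-1 : ℤˣ) : ℤ) * of g)).left = (dl f (((f t)⁻¹ : Γ) : Q f))⁻¹ := by
      rw [map_mul, f'_of]
      have h1 : (f' f (t ^ ((-1 : ℤˣ) : ℤ))) = (f' f t)⁻¹ := by
        rw [← map_inv]; congr 1
      rw [h1, f'_t]
      simp only [SemidirectProduct.mul_left, SemidirectProduct.left_inr, map_one, mul_one,
        SemidirectProduct.inv_left]
      rw [map_inv, arrow_dl]
      congr 2
      change ((((f t)⁻¹ * 1 : Γ)) : Q f) = (((f t)⁻¹ : Γ) : Q f)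
      rw [mul_one]
    rw [this, Pi.inv_apply, toAdd_inv, dl, pos_neg_one]
    by_cases hq : q = (((f t)⁻¹ : Γ) : Q f)
    · rw [if_pos hq, if_pos hq.symm]; rfl
    · rw [if_neg hq, if_neg (fun h => hq h.symm)]; rfl

lemma left_mul (x y : HNNExtension H A B φ) (q : Q f) :
    Multiplicative.toAdd ((f' f (x * y)).left q)
      = Multiplicative.toAdd ((f' f x).left q)
        + Multiplicative.toAdd ((f' f y).left ((f x)⁻¹ • q)) := by
  rw [map_mul, SemidirectProduct.mul_left, Pi.mul_apply, toAdd_mul, arrow_apply, right_f']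

lemma wprod_cons (p : ℤˣ × H) (l : List (ℤˣ × H)) :
    wprod φ (p :: l) = t ^ (p.1 : ℤ) * of p.2 * wprod φ l := by
  simp [wprod]

lemma wprod_nil : wprod φ [] = 1 := by
  simp [wprod]

open Classical in
lemma sign_le (v0 : ℤˣ) (m : List (ℤˣ × H)) : ∀ q : Q f,
    (∀ (l' : List (ℤˣ × H)) (v : ℤˣ) (g : H) (l'' : List (ℤˣ × H)),
      m = l' ++ (v, g) :: l'' → f (wprod φ l') • pos f v = q → v ≠ v0) →
    (v0 : ℤ) * Multiplicative.toAdd ((f' f (wprod φ m)).left q) ≤ 0 := by
  induction m with
  | nil =>
    intro q _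
    rw [wprod_nil, map_one]
    simp
  | cons p m ih =>
    intro q hq
    obtain ⟨u, g⟩ := p
    rw [wprod_cons, left_mul, left_letter, mul_add]
    have h1 : (v0 : ℤ) * (if pos f u = q then (u : ℤ) else 0) ≤ 0 := by
      by_cases hu : pos f u = q
      · have := hq [] u g m rfl (by rw [wprod_nil, map_one, one_smul]; exact hu)
        rw [if_pos hu]
        rcases Int.units_eq_one_or u with rfl | rfl <;> rcases Int.units_eq_one_or v0 with rfl | rfl
        · exact absurd rfl this
        · simp
        · simp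
        · exact absurd rfl this
      · rw [if_neg hu, mul_zero]
    have h2 := ih ((f (t ^ (u : ℤ) * of g))⁻¹ • q) (by
      intro l' v g' l'' hm hv
      refine hq ((u, g) :: l') v g' l'' (by rw [hm]; rfl) ?_
      rw [wprod_cons, map_mul, mul_smul, hv, smul_inv_smul])
    linarith

end TStep

open TStep in
/-- `Γ' = Multiplicative (Γ ⧸ B̄ → ℤ) ⋊ Γ`, `B̄ = image of B`, `f' (of h) = (0, f (of h))`,
`f' t = (δ_{[B̄]}, f t)`, `π` = projection. If `f' (wprod l) = f' (of h)`, its first component is
zero; the first letter `t^{u₁}` contributes `u₁` at the coset `c = [1]` (`u₁ = 1`) or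
`c = [f t⁻¹]` (`u₁ = -1`), so some later letter `t^{u_j}`, `u_j = -u₁`, contributes at the same
coset. This says `f (g₁ t^{u₂} g₂ ⋯ t^{u_{j-1}} g_{j-1}) ∈ f (toSubgroup u₁)`; if `j = 2` this
contradicts `Good` and the chain condition, if `j ≥ 3` it contradicts the hypothesis on
`l' = [(u₂,g₂), …, (u_{j-1},g_{j-1})]`. -/
theorem tower_step {Γ : Type} [Group Γ] (hΓ : Amen Γ) (f : HNNExtension H A B φ →* Γ) :
    ∃ (Γ' : Type) (_ : Group Γ') (f' : HNNExtension H A B φ →* Γ') (π : Γ' →* Γ), Amen Γ' ∧
      (∀ x, π (f' x) = f x) ∧ (∀ x : Γ', π x = 1 → x ≠ 1 → ¬ IsOfFinOrder x) ∧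
      ∀ l : List (ℤˣ × H), l.IsChain (Red A B) → l ≠ [] → (∀ p ∈ l, Good f p.2) →
        (∀ l' : List (ℤˣ × H), l' <:+: l → l' ≠ [] → l'.length + 2 ≤ l.length →
          ∀ h : H, f (wprod φ l') ≠ f (of h)) →
        ∀ h : H, f' (wprod φ l) ≠ f' (of h) := by
  refine ⟨G' f, inferInstance, TStep.f' f, SemidirectProduct.rightHom, ?_, ?_, ?_, ?_⟩
  · exact Amen.semidirect _ Amen.of_comm hΓ
  · intro x
    exact right_f' f x
  · intro x hx hx1 hfin
    obtain ⟨k, hk, hk'⟩ := isOfFinOrder_iff_pow_eq_one.1 hfin
    apply hx1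
    have hr : x.right = 1 := hx
    have hxl : x = SemidirectProduct.inl x.left := by
      refine SemidirectProduct.ext ?_ ?_
      · simp
      · simpa using hr
    rw [hxl] at hk'
    have h2 : x.left ^ k = 1 := by
      rw [← map_pow] at hk'
      exact SemidirectProduct.inl_injective (hk'.trans (map_one _).symm)
    have h3 : x.left = 1 := by
      funext q
      have h4 := congrFun h2 q
      rw [Pi.pow_apply, Pi.one_apply] at h4
      have h5 : (k : ℤ) * Multiplicative.toAdd (x.left q) = 0 := by
        have := congrArg Multiplicative.toAdd h4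
        simpa using this
      rcases mul_eq_zero.1 h5 with h6 | h6
      · exact absurd h6 (by exact_mod_cast hk.ne')
      · exact h6
    rw [hxl, h3, map_one]
  · intro l hch hne hgood hyp h heq
    cases l with
    | nil => exact hne rfl
    | cons p m =>
      obtain ⟨u, g⟩ := p
      have h0 : Multiplicative.toAdd ((TStep.f' f (wprod φ ((u, g) :: m))).left (pos f u)) = 0 := by
        rw [heq, f'_of]; simp
      rw [wprod_cons, left_mul, left_letter, if_pos rfl] at h0
      by_contra _
      have key : ¬ ((((-u : ℤˣ) : ℤ)) * Multiplicative.toAdd ((TStep.f' f (wprod φ m)).left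
          ((f (t ^ (u : ℤ) * of g))⁻¹ • pos f u)) ≤ 0) := by
        intro hle
        have h1 : Multiplicative.toAdd ((TStep.f' f (wprod φ m)).left
          ((f (t ^ (u : ℤ) * of g))⁻¹ • pos f u)) = -(u : ℤ) := by
          have := h0
          simp only at this
          linarith
        rw [h1] at hle
        rcases Int.units_eq_one_or u with rfl | rfl <;> simp at hle
      apply key
      apply sign_le
      intro l' v g' l'' hm hv hvu
      subst hvu
      have e1 : f (t ^ (u : ℤ) * of g) • f (wprod φ l') • pos f (-u) = pos f u := by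
        rw [hv, smul_inv_smul]
      -- the key membership
      have e2 : ∃ a ∈ toSubgroup A B u, f (of g) * f (wprod φ l') = f (of a) := by
        rcases Int.units_eq_one_or u with rfl | rfl
        · rw [pos_neg_one, pos_one] at e1
          change (((f (t ^ ((1 : ℤˣ) : ℤ) * of g) * (f (wprod φ l') * (f t)⁻¹) : Γ)) : Q f)
            = ((1 : Γ) : Q f) at e1
          rw [eq_comm, QuotientGroup.eq] at e1
          obtain ⟨b, hb, hb'⟩ := e1
          refine ⟨(φ.symm ⟨b, hb⟩ : H), (φ.symm ⟨b, hb⟩).2, ?_⟩
          have h2 := congrArg f (equiv_symm_eq_conj (φ := φ) ⟨b, hb⟩)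
          rw [map_mul, map_mul, map_inv] at h2
          rw [h2]
          have h3 : f (of b) = f t * f (of g) * (f (wprod φ l') * (f t)⁻¹) := by
            simpa using hb'
          change _ = (f t)⁻¹ * f (of b) * f t
          rw [h3]
          group
        · rw [neg_neg, pos_one, pos_neg_one] at e1
          change (((f (t ^ ((-1 : ℤˣ) : ℤ) * of g) * (f (wprod φ l') * 1) : Γ)) : Q f)
            = (((f t)⁻¹ : Γ) : Q f) at e1
          rw [eq_comm, QuotientGroup.eq] at e1
          obtain ⟨b, hb, hb'⟩ := e1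
          refine ⟨b, hb, ?_⟩
          have h3 : f (of b) = ((f t)⁻¹)⁻¹ * ((f t)⁻¹ * f (of g) * (f (wprod φ l') * 1)) := by
            simpa using hb'
          rw [h3]
          group
      obtain ⟨a, ha, hae⟩ := e2
      by_cases hl : l' = []
      · subst hl
        rw [wprod_nil, map_one, mul_one] at hae
        have hg : g ∉ toSubgroup A B u := by
          intro hgu
          rw [hm] at hch
          have := (List.isChain_cons_cons.1 hch).1 hgu
          simp only at this
          rcases Int.units_eq_one_or u with rfl | rfl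
          · exact absurd this (by decide)
          · exact absurd this (by decide)
        exact hgood (u, g) List.mem_cons_self u hg a ha hae
      · refine hyp l' ?_ hl ?_ (g⁻¹ * a) ?_
        · rw [hm]
          exact ⟨[(u, g)], (-u, g') :: l'', by simp⟩
        · rw [hm]; simp
        · rw [map_mul, map_mul, ← hae, map_inv, map_inv]
          group

end Pool.Agent.H63RA
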