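import Pool.Agent.Lib.H63RA.Defs

/-! CHUNK Y: every element of an HNN extension is conjugate to an element of the base or to a
cyclically reduced word. -/

set_option autoImplicit false

open HNNExtension

namespace Pool.Agent.H63RA

variable {H : Type} [Group H] {A B : Subgroup H} {φ : A ≃* B}

theorem wprod_nil : wprod φ [] = 1 := rfl

theorem wprod_cons (p : ℤˣ × H) (l : List (ℤˣ × H)) :
    wprod φ (p :: l) = t ^ (p.1 : ℤ) * of p.2 * wprod φ l := rfl

theorem wprod_append (l m : List (ℤˣ × H)) :
    wprod φ (l ++ m) = wprod φ l * wprod φ m := by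
  simp [wprod]

/-- two syllables that are not reduced cancel to an element of the base -/
theorem syll_cancel (p q : ℤˣ × H) (h : ¬ Red A B p q) :
    ∃ x : H, t ^ (p.1 : ℤ) * of p.2 * (t ^ (q.1 : ℤ) * of q.2) =
      (of x : HNNExtension H A B φ) := by
  obtain ⟨u, a⟩ := p
  obtain ⟨v, b⟩ := q
  simp only [Red, Classical.not_imp] at h
  obtain ⟨ha, huv⟩ := h
  rcases Int.units_eq_one_or u with rfl | rfl <;> rcases Int.units_eq_one_or v with rfl | rfl
  · exact absurd rfl huv
  · refine ⟨(φ ⟨a, ha⟩ : H) * b, ?_⟩
    rw [map_mul, equiv_eq_conj]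
    simp [mul_assoc]
  · refine ⟨(φ.symm ⟨a, ha⟩ : H) * b, ?_⟩
    rw [map_mul, equiv_symm_eq_conj]
    simp [mul_assoc]
  · exact absurd rfl huv

/-- the property of the theorem -/
def CR (A B : Subgroup H) (φ : A ≃* B) (g : HNNExtension H A B φ) : Prop :=
  ∃ c : HNNExtension H A B φ, (∃ h : H, c * g * c⁻¹ = of h) ∨
      ∃ l : List (ℤˣ × H), l ≠ [] ∧ (l ++ l).IsChain (Red A B) ∧ c * g * c⁻¹ = wprod φ l

theorem CR.of_conj {g : HNNExtension H A B φ} (d : HNNExtension H A B φ)
    (h : CR A B φ (d * g * d⁻¹)) : CR A B φ g := by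
  obtain ⟨c, h | ⟨l, h1, h2, h3⟩⟩ := h
  · obtain ⟨x, hx⟩ := h
    refine ⟨c * d, Or.inl ⟨x, ?_⟩⟩
    rw [← hx]
    group
  · refine ⟨c * d, Or.inr ⟨l, h1, h2, ?_⟩⟩
    rw [← h3]
    group

/-- `a * b` and `b * a` are conjugate -/
theorem CR.comm {a b : HNNExtension H A B φ} (h : CR A B φ (b * a)) : CR A B φ (a * b) := by
  refine CR.of_conj b ?_
  have : b * (a * b) * b⁻¹ = b * a := by group
  rw [this]
  exact h

theorem CR_wprod (n : ℕ) : ∀ (l : List (ℤˣ × H)) (h : H), l.length = n →
    CR A B φ (of h * wprod φ l) := by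
  induction n using Nat.strong_induction_on with
  | _ n ih =>
  intro l h hl
  rcases List.eq_nil_or_concat l with rfl | ⟨l0, p0, rfl⟩
  · exact ⟨1, Or.inl ⟨h, by simp [wprod_nil]⟩⟩
  · apply CR.comm
    -- the word with the head moved into the last syllable
    obtain ⟨m, hm, hmn, hmp⟩ : ∃ m : List (ℤˣ × H), m ≠ [] ∧ m.length = n ∧
        wprod φ (l0 ++ [p0]) * of h = wprod φ m := by
      refine ⟨l0 ++ [(p0.1, p0.2 * h)], by simp, by simpa using hl, ?_⟩
      rw [wprod_append, wprod_append, wprod_cons, wprod_cons]
      simp [wprod_nil, mul_assoc]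
    rw [List.concat_eq_append, hmp]
    by_cases hc : (m ++ m).IsChain (Red A B)
    · exact ⟨1, Or.inr ⟨m, hm, hc, by simp⟩⟩
    · by_cases hc1 : m.IsChain (Red A B)
      · -- last syllable and first syllable cancel
        rw [List.isChain_append] at hc
        have hc2 : ¬ ∀ x ∈ m.getLast?, ∀ y ∈ m.head?, Red A B x y := fun h => hc ⟨hc1, hc1, h⟩
        push Not at hc2
        obtain ⟨p, hp, q, hq, hpq⟩ := hc2
        obtain ⟨m1, rfl⟩ : ∃ m1, m = q :: m1 := by
          cases m with
          | nil => exact absurd rfl hm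
          | cons a m1 => exact ⟨m1, by simp at hq; rw [hq]⟩
        rcases List.eq_nil_or_concat m1 with rfl | ⟨m2, p', rfl⟩
        · simp at hp
          rw [hp] at hpq
          exact absurd (fun _ => rfl) hpq
        · have hpp : p' = p := by
            have h0 : q :: m2.concat p' = (q :: m2) ++ [p'] := by simp
            rw [h0, List.getLast?_concat] at hp
            simpa using hp
          subst hpp
          obtain ⟨x, hx⟩ := syll_cancel (φ := φ) p' q hpq
          have h1 : wprod φ (q :: m2.concat p') =
              (t ^ (q.1 : ℤ) * of q.2 * wprod φ m2) * (t ^ (p'.1 : ℤ) * of p'.2) := by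
            rw [List.concat_eq_append, wprod_cons, wprod_append, wprod_cons, wprod_nil]
            simp [mul_assoc]
          rw [h1]
          apply CR.comm
          have h2 : t ^ (p'.1 : ℤ) * of p'.2 * (t ^ (q.1 : ℤ) * of q.2 * wprod φ m2) =
              of x * wprod φ m2 := by
            rw [← hx]
            simp [mul_assoc]
          rw [h2]
          refine ih m2.length ?_ m2 x rfl
          simp at hmn
          omega
      · -- two neighbouring syllables cancel
        obtain ⟨a, p, q, b, hab, hpq⟩ : ∃ a p q b, m = a ++ p :: q :: b ∧ ¬ Red A B p q := by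
          clear hc hmp hm hmn
          induction m with
          | nil => exact absurd List.isChain_nil hc1
          | cons c m ihm =>
            cases m with
            | nil => exact absurd (List.isChain_singleton c) hc1
            | cons d m =>
              rw [List.isChain_cons_cons] at hc1
              by_cases hcd : Red A B c d
              · obtain ⟨a, p, q, b, h1, h2⟩ := ihm (fun h => hc1 ⟨hcd, h⟩)
                exact ⟨c :: a, p, q, b, by rw [h1]; rfl, h2⟩
              · exact ⟨[], c, d, m, rfl, hcd⟩
        obtain ⟨x, hx⟩ := syll_cancel (φ := φ) p q hpq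
        subst hab
        have h1 : wprod φ (a ++ p :: q :: b) = wprod φ a * (of x * wprod φ b) := by
          rw [wprod_append, wprod_cons, wprod_cons, ← hx]
          simp [mul_assoc]
        rw [h1]
        apply CR.comm
        have h2 : of x * wprod φ b * wprod φ a = of x * wprod φ (b ++ a) := by
          rw [wprod_append, mul_assoc]
        rw [h2]
        refine ih (b ++ a).length ?_ (b ++ a) x rfl
        simp at hmn ⊢
        omega

/-- Every element is `of h * wprod φ l` with `l` reduced (`NormalWord.equiv`); conjugate to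
`wprod φ (l with its last syllable multiplied by h)`; if last/first letters cancel, the length drops
by two. Strong induction on the length. -/
theorem conj_cases (g : HNNExtension H A B φ) :
    ∃ c : HNNExtension H A B φ, (∃ h : H, c * g * c⁻¹ = of h) ∨
      ∃ l : List (ℤˣ × H), l ≠ [] ∧ (l ++ l).IsChain (Red A B) ∧ c * g * c⁻¹ = wprod φ l := by
  obtain ⟨d⟩ := NormalWord.TransversalPair.nonempty H A B
  have hg : ((NormalWord.equiv φ d) g).prod φ = g := (NormalWord.equiv φ d).symm_apply_apply g
  rw [← hg]
  exact CR_wprod _ _ _ rfl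

end Pool.Agent.H63RA
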