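import Pool.Agent.Lib.H63RA.TowerStep
import Pool.Agent.Lib.H63RA.CycRed

/-! CHUNK U: the tower argument. -/

set_option autoImplicit false

open HNNExtension

namespace Pool.Agent.H63RA

variable {H : Type} [Group H] {A B : Subgroup H} {φ : A ≃* B}

/-- Finitely many homomorphisms to amenable groups can be combined (product). -/
theorem exists_good_of_forall
    (h : ∀ h : H, ∃ (Γ : Type) (_ : Group Γ) (f : HNNExtension H A B φ →* Γ), Amen Γ ∧ Good f h)
    (S : Finset H) :
    ∃ (Γ : Type) (_ : Group Γ) (f : HNNExtension H A B φ →* Γ), Amen Γ ∧ ∀ h ∈ S, Good f h := by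
  classical
  induction S using Finset.induction_on with
  | empty =>
    obtain ⟨Γ, i, f, h1, _⟩ := h 1
    exact ⟨Γ, i, f, h1, by simp⟩
  | insert a S _ ih =>
    obtain ⟨Γ, i, f, h1, h2⟩ := ih
    obtain ⟨Γ', i', f', h1', h2'⟩ := h a
    refine ⟨Γ × Γ', inferInstance, f.prod f', h1.prod h1', fun x hx => ?_⟩
    rcases Finset.mem_insert.1 hx with rfl | hx
    · intro u hu b hb e
      exact h2' u hu b hb (congrArg Prod.snd e)
    · intro u hu b hb e
      exact h2 x hx u hu b hb (congrArg Prod.fst e)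

theorem tw_append (l l' : List (ℤˣ × H)) : wprod φ (l ++ l') = wprod φ l * wprod φ l' := by
  simp [wprod]

theorem tw_nil : wprod φ ([] : List (ℤˣ × H)) = 1 := rfl

theorem tw_rep (l : List (ℤˣ × H)) (m : ℕ) :
    wprod φ (List.replicate m l).flatten = wprod φ l ^ m := by
  induction m with
  | zero => simp [tw_nil]
  | succ m ih => rw [List.replicate_succ, List.flatten_cons, tw_append, ih, pow_succ']

theorem tw_chain_rep {α : Type} {R : α → α → Prop} {l : List α} (hl : l ≠ [])
    (h : (l ++ l).IsChain R) (m : ℕ) : (List.replicate m l).flatten.IsChain R := by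
  obtain ⟨h1, _, h3⟩ := List.isChain_append.1 h
  induction m with
  | zero => simp
  | succ m ih =>
    rw [List.replicate_succ, List.flatten_cons]
    refine List.isChain_append.2 ⟨h1, ih, fun x hx y hy => h3 x hx y ?_⟩
    cases m with
    | zero => simp at hy
    | succ m =>
      rw [List.replicate_succ, List.flatten_cons] at hy
      cases l with
      | nil => exact absurd rfl hl
      | cons a l => simpa using hy

theorem tw_mem_rep {α : Type} {l : List α} {m : ℕ} {x : α} (h : x ∈ (List.replicate m l).flatten) :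
    x ∈ l := by
  obtain ⟨l', h1, h2⟩ := List.mem_flatten.1 h
  rw [List.eq_of_mem_replicate h1] at h2
  exact h2

theorem tw_fin_conj {G : Type} [Group G] {x c : G} (h : IsOfFinOrder x) :
    IsOfFinOrder (c * x * c⁻¹) := by
  have := (MulAut.conj c).toMonoidHom.isOfFinOrder h
  simpa using this

/-- Let `g ≠ 1`. By `conj_cases` either `g` is conjugate into `H` (use `h1`) or to `wprod φ l`, `l`
cyclically reduced; then `g^m = wprod φ (l repeated m times)` is reduced with the same syllables.
Take `f₀` good for the syllables of `l`; if `f₀ g` has finite order `m ≥ 1`, let `γ = g^m`. By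
induction on `d` (using `tower_step`): there is `f : _ →* Γ`, `Γ` amenable, such that either `f γ`
has infinite order, or `f γ = 1`, `f` is good for the syllables of `l`, and
`f (wprod φ l') ≠ f (of h)` for all reduced `l'` with syllables among those of `l` and
`1 ≤ l'.length ≤ 2 * d`, all `h`. For `2 * d ≥ m * l.length` the second alternative is
impossible. -/
theorem sra_of_good
    (h1 : ∀ h : H, h ≠ 1 → ∃ (Γ : Type) (_ : Group Γ) (f : HNNExtension H A B φ →* Γ),
      Amen Γ ∧ ¬ IsOfFinOrder (f (of h)))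
    (h2 : ∀ h : H, ∃ (Γ : Type) (_ : Group Γ) (f : HNNExtension H A B φ →* Γ), Amen Γ ∧ Good f h) :
    SRA (HNNExtension H A B φ) := by
  classical
  intro g hg
  obtain ⟨c, ⟨h, hc⟩ | ⟨l, hl0, hl, hc⟩⟩ := conj_cases g
  · have hh : h ≠ 1 := by
      rintro rfl
      rw [map_one] at hc
      apply hg
      have : g = c⁻¹ * (c * g * c⁻¹) * c := by group
      rw [this, hc]; group
    obtain ⟨Γ, i, f, hΓ, hf⟩ := h1 h hh
    refine ⟨Γ, i, f, hΓ, fun hfin => hf ?_⟩
    rw [← hc, map_mul, map_mul, map_inv]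
    exact tw_fin_conj hfin
  · -- the set of the syllables
    let S : Finset H := (l.map Prod.snd).toFinset
    have hS : ∀ p ∈ l, p.2 ∈ S := fun p hp => by
      simp only [S, List.mem_toFinset]
      exact List.mem_map_of_mem hp
    obtain ⟨Γ₀, i₀, f₀, hΓ₀, hf₀⟩ := exists_good_of_forall h2 S
    by_cases hfin : IsOfFinOrder (f₀ (wprod φ l))
    swap
    · refine ⟨Γ₀, i₀, f₀, hΓ₀, fun h => hfin ?_⟩
      rw [← hc, map_mul, map_mul, map_inv]
      exact tw_fin_conj h
    obtain ⟨m, hm0, hm⟩ := isOfFinOrder_iff_pow_eq_one.1 hfin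
    let L := (List.replicate m l).flatten
    have hLc : L.IsChain (Red A B) := tw_chain_rep hl0 hl m
    have hLS : ∀ p ∈ L, p.2 ∈ S := fun p hp => hS p (tw_mem_rep hp)
    have hL0 : L ≠ [] := by
      obtain ⟨k, rfl⟩ : ∃ k, m = k + 1 := ⟨m - 1, by omega⟩
      simp only [L, List.replicate_succ, List.flatten_cons]
      simp [hl0]
    have hγ : wprod φ L = wprod φ l ^ m := tw_rep l m
    have key : ∀ d : ℕ,
        (∃ (Γ : Type) (_ : Group Γ) (f : HNNExtension H A B φ →* Γ), Amen Γ ∧
          ¬ IsOfFinOrder (f (wprod φ L))) ∨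
        ∃ (Γ : Type) (_ : Group Γ) (f : HNNExtension H A B φ →* Γ), Amen Γ ∧
          f (wprod φ L) = 1 ∧ (∀ h ∈ S, Good f h) ∧
          ∀ l' : List (ℤˣ × H), l'.IsChain (Red A B) → (∀ p ∈ l', p.2 ∈ S) → l' ≠ [] →
            l'.length ≤ 2 * d → ∀ h : H, f (wprod φ l') ≠ f (of h) := by
      intro d
      induction d with
      | zero =>
        refine Or.inr ⟨Γ₀, i₀, f₀, hΓ₀, by rw [hγ, map_pow, hm], hf₀, fun l' _ _ h3 h4 => ?_⟩
        exact absurd (List.length_eq_zero_iff.1 (by omega)) h3
      | succ d ih =>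
        rcases ih with ih | ⟨Γ, i, f, hΓ, hfγ, hfS, hfl⟩
        · exact Or.inl ih
        · obtain ⟨Γ', i', f', π, hΓ', hπ, hinf, hstep⟩ := tower_step hΓ f
          by_cases hγ' : f' (wprod φ L) = 1
          · refine Or.inr ⟨Γ', i', f', hΓ', hγ', fun h hh u hu b hb e => ?_, ?_⟩
            · apply hfS h hh u hu b hb
              rw [← hπ, ← hπ, e]
            · intro l' hl'c hl'S hl'0 hl'len
              refine hstep l' hl'c hl'0 (fun p hp => hfS _ (hl'S p hp)) ?_
              intro l'' hin h0 hlen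
              refine hfl l'' (by
                obtain ⟨s₁, t₁, rfl⟩ := hin
                exact (List.isChain_append.1 (List.isChain_append.1 hl'c).1).2.1) (fun p hp => hl'S p (hin.subset hp)) h0 (by omega)
          · refine Or.inl ⟨Γ', i', f', hΓ', hinf _ ?_ hγ'⟩
            rw [hπ, hfγ]
    rcases key L.length with ⟨Γ, i, f, hΓ, hf⟩ | ⟨Γ, i, f, hΓ, hfγ, hfS, hfl⟩
    · refine ⟨Γ, i, f, hΓ, fun h => hf ?_⟩
      rw [hγ, map_pow]
      apply IsOfFinOrder.pow
      rw [← hc, map_mul, map_mul, map_inv]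
      exact tw_fin_conj h
    · exfalso
      exact hfl L hLc hLS hL0 (by omega) 1 (by rw [hfγ, map_one, map_one])

end Pool.Agent.H63RA
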