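import Pool.Agent.Lib.H63RA.Conj
import Pool.Agent.Lib.H63RA.Tower

/-! CHUNK S: the combination theorem for cyclic associated subgroups. -/

set_option autoImplicit false

open HNNExtension

namespace Pool.Agent.H63RA

theorem SRA.not_isOfFinOrder {H : Type} [Group H] (hH : SRA H) {x : H} (hx : x ≠ 1) :
    ¬ IsOfFinOrder x := by
  obtain ⟨Γ, _, f, _, hf⟩ := hH x hx
  exact fun h => hf (f.isOfFinOrder h)

theorem SRA.of_injective {G H : Type} [Group G] [Group H] (hH : SRA H) (f : G →* H)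
    (hf : Function.Injective f) : SRA G := by
  intro g hg
  obtain ⟨Γ, gΓ, q, h1, h2⟩ := hH (f g) (fun h => hg (hf (h.trans (map_one f).symm)))
  exact ⟨Γ, gΓ, q.comp f, h1, h2⟩

theorem not_fin_prod_left {H Λ₁ Λ₂ : Type} [Group H] [Group Λ₁] [Group Λ₂] (f : H →* Λ₁)
    (g : H →* Λ₂) {x : H} (hx : ¬ IsOfFinOrder (f x)) : ¬ IsOfFinOrder (f.prod g x) :=
  fun h => hx ((MonoidHom.fst Λ₁ Λ₂).isOfFinOrder h)

theorem not_fin_prod_right {H Λ₁ Λ₂ : Type} [Group H] [Group Λ₁] [Group Λ₂] (f : H →* Λ₁)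
    (g : H →* Λ₂) {x : H} (hx : ¬ IsOfFinOrder (g x)) : ¬ IsOfFinOrder (f.prod g x) :=
  fun h => hx ((MonoidHom.snd Λ₁ Λ₂).isOfFinOrder h)

/-- In an SRA group cyclic subgroups are separable: if `h ∉ ⟨x⟩` there is `f` to an amenable group
with `f x` of infinite order (if `x ≠ 1`) and `f h ∉ ⟨f x⟩`. (First `f₁` with `f₁ x` of infinite
order; if `f₁ h = (f₁ x)^m`, take `f₂` with `f₂ (h x^{-m}) ≠ 1` and use `f₁ × f₂`.) -/
theorem SRA.separates {H : Type} [Group H] (hH : SRA H) {x h : H} (hx : x ≠ 1)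
    (hh : h ∉ Subgroup.zpowers x) :
    ∃ (Γ : Type) (_ : Group Γ) (f : H →* Γ), Amen Γ ∧ ¬ IsOfFinOrder (f x) ∧
      f h ∉ Subgroup.zpowers (f x) := by
  obtain ⟨Γ₁, g₁, f₁, a₁, h₁⟩ := hH x hx
  by_cases hm : f₁ h ∈ Subgroup.zpowers (f₁ x)
  · obtain ⟨m, hm⟩ := hm
    have hne : h * (x ^ m)⁻¹ ≠ 1 := by
      intro h0
      exact hh ⟨m, (mul_inv_eq_one.mp h0).symm⟩
    obtain ⟨Γ₂, g₂, f₂, a₂, h₂⟩ := hH _ hne
    refine ⟨Γ₁ × Γ₂, inferInstance, f₁.prod f₂, a₁.prod a₂, not_fin_prod_left f₁ f₂ h₁, ?_⟩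
    rintro ⟨k, hk⟩
    have hk1 : f₁ x ^ k = f₁ h := congrArg Prod.fst hk
    have hk2 : f₂ x ^ k = f₂ h := congrArg Prod.snd hk
    have hkm : k = m := by
      have : f₁ x ^ k = f₁ x ^ m := by rw [hk1]; exact hm.symm
      exact (injective_zpow_iff_not_isOfFinOrder.mpr h₁) this
    subst hkm
    apply h₂
    rw [map_mul, map_inv, map_zpow, hk2, mul_inv_cancel]
    exact IsOfFinOrder.one
  · exact ⟨Γ₁, g₁, f₁, a₁, h₁, hm⟩

/-- Extension of homomorphisms over the stable letter. -/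
theorem exists_ext {H : Type} [Group H] {x y : H}
    (d : H →* Multiplicative ℤ) (hd : d x ≠ 1 ∨ d y ≠ 1)
    (φ : Subgroup.zpowers x ≃* Subgroup.zpowers y)
    (hφ : (φ ⟨x, Subgroup.mem_zpowers x⟩ : H) = y) {Λ : Type} [Group Λ] (hΛ : Amen Λ)
    (q : H →* Λ) (hx : ¬ IsOfFinOrder (q x)) (hy : ¬ IsOfFinOrder (q y)) :
    ∃ (Γ : Type) (_ : Group Γ)
      (f : HNNExtension H (Subgroup.zpowers x) (Subgroup.zpowers y) φ →* Γ), Amen Γ ∧
      (∀ h, ¬ IsOfFinOrder (q h) → ¬ IsOfFinOrder (f (of h))) ∧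
      (∀ h a, q h ≠ q a → f (of h) ≠ f (of a)) := by
  obtain ⟨Γ, gΓ, ι, s, ham, hι, hs⟩ := exists_conj (Λ := Λ × Multiplicative ℤ)
    (hΛ.prod Amen.of_comm) (MonoidHom.snd _ _) (q.prod d x) (q.prod d y)
    (not_fin_prod_left q d hx) (not_fin_prod_left q d hy) hd
  refine ⟨Γ, gΓ, HNNExtension.lift (ι.comp (q.prod d)) s ?_, ham, ?_, ?_⟩
  · rintro ⟨a, k, rfl⟩
    have h1 : (φ ⟨x ^ k, k, rfl⟩ : H) = y ^ k := by
      have : (⟨x ^ k, k, rfl⟩ : Subgroup.zpowers x) = ⟨x, Subgroup.mem_zpowers x⟩ ^ k := by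
        ext; simp
      rw [this, map_zpow, SubgroupClass.coe_zpow, hφ]
    simp only [MonoidHom.comp_apply]
    have h2 : s * ι (q.prod d (x ^ k)) * s⁻¹ = ι (q.prod d (y ^ k)) := by
      rw [map_zpow, map_zpow, map_zpow, map_zpow, ← hs, conj_zpow]
    rw [h1, ← h2, inv_mul_cancel_right]
  · intro h hh hf
    rw [lift_of, MonoidHom.comp_apply] at hf
    have := (hι.isOfFinOrder_iff (f := ι)).mp hf
    exact not_fin_prod_left q d hh this
  · intro h a hne hf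
    rw [lift_of, lift_of, MonoidHom.comp_apply, MonoidHom.comp_apply] at hf
    exact hne (congrArg Prod.fst (hι hf))

/-- Combination theorem: take an amenable quotient `q : H → Λ` (product of finitely many, and with
`ℤ` through `d`) with `q x`, `q y` of infinite order, `q h ∉ ⟨q x⟩` etc., compose with
`exists_conj`, extend over `t` by `HNNExtension.lift`, and apply `sra_of_good`. -/
theorem sra_hnn_cyclic {H : Type} [Group H] (hH : SRA H) {x y : H} (hx : x ≠ 1) (hy : y ≠ 1)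
    (d : H →* Multiplicative ℤ) (hd : d x ≠ 1 ∨ d y ≠ 1)
    (φ : Subgroup.zpowers x ≃* Subgroup.zpowers y)
    (hφ : (φ ⟨x, Subgroup.mem_zpowers x⟩ : H) = y) :
    SRA (HNNExtension H (Subgroup.zpowers x) (Subgroup.zpowers y) φ) := by
  apply sra_of_good
  · intro h hh
    obtain ⟨Γ₁, g₁, q₁, a₁, h₁⟩ := hH x hx
    obtain ⟨Γ₂, g₂, q₂, a₂, h₂⟩ := hH y hy
    obtain ⟨Γ₃, g₃, q₃, a₃, h₃⟩ := hH h hh
    obtain ⟨Γ, gΓ, f, ham, hf, -⟩ := exists_ext d hd φ hφ ((a₁.prod a₂).prod a₃)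
      ((q₁.prod q₂).prod q₃) (not_fin_prod_left _ _ (not_fin_prod_left _ _ h₁))
      (not_fin_prod_left _ _ (not_fin_prod_right _ _ h₂))
    exact ⟨Γ, gΓ, f, ham, hf h (not_fin_prod_right _ _ h₃)⟩
  · intro h
    have key : ∀ z : H, z ≠ 1 → ∃ (Γ : Type) (_ : Group Γ) (q : H →* Γ), Amen Γ ∧
        ¬ IsOfFinOrder (q z) ∧ (h ∉ Subgroup.zpowers z → q h ∉ Subgroup.zpowers (q z)) := by
      intro z hz
      by_cases hm : h ∈ Subgroup.zpowers z
      · obtain ⟨Γ₁, g₁, q₁, a₁, h₁⟩ := hH z hz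
        exact ⟨Γ₁, g₁, q₁, a₁, h₁, fun h0 => absurd hm h0⟩
      · obtain ⟨Γ₁, g₁, q₁, a₁, h₁, h₂⟩ := hH.separates hz hm
        exact ⟨Γ₁, g₁, q₁, a₁, h₁, fun _ => h₂⟩
    obtain ⟨Γ₁, g₁, q₁, a₁, h₁, s₁⟩ := key x hx
    obtain ⟨Γ₂, g₂, q₂, a₂, h₂, s₂⟩ := key y hy
    obtain ⟨Γ, gΓ, f, ham, -, hf⟩ := exists_ext d hd φ hφ (a₁.prod a₂)
      (q₁.prod q₂) (not_fin_prod_left _ _ h₁) (not_fin_prod_right _ _ h₂)
    refine ⟨Γ, gΓ, f, ham, ?_⟩
    intro u hu a ha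
    apply hf
    intro hqa
    rcases Int.units_eq_one_or u with rfl | rfl
    · rw [toSubgroup_one] at hu ha
      obtain ⟨k, rfl⟩ := ha
      exact s₁ hu ⟨k, by
        have := congrArg Prod.fst hqa
        simpa using this.symm⟩
    · rw [toSubgroup_neg_one] at hu ha
      obtain ⟨k, rfl⟩ := ha
      exact s₂ hu ⟨k, by
        have := congrArg Prod.snd hqa
        simpa using this.symm⟩

/-- Free product with `ℤ`, as an HNN extension over the trivial group. -/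
theorem sra_hnn_bot {H : Type} [Group H] (hH : SRA H)
    (φ : (⊥ : Subgroup H) ≃* (⊥ : Subgroup H)) : SRA (HNNExtension H ⊥ ⊥ φ) := by
  have key : ∀ {Γ : Type} [Group Γ] (q : H →* Γ),
      ∃ f : HNNExtension H ⊥ ⊥ φ →* Γ, ∀ h, f (of h) = q h := by
    intro Γ _ q
    refine ⟨HNNExtension.lift q 1 ?_, fun h => lift_of _ _ _ _⟩
    rintro ⟨a, ha⟩
    have h1 := (φ ⟨a, ha⟩).2
    rw [Subgroup.mem_bot] at ha h1
    rw [h1]
    simp [ha]
  apply sra_of_good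
  · intro h hh
    obtain ⟨Γ, gΓ, q, ham, hq⟩ := hH h hh
    obtain ⟨f, hf⟩ := key q
    exact ⟨Γ, gΓ, f, ham, by rw [hf]; exact hq⟩
  · intro h
    by_cases hh : h = 1
    · subst hh
      obtain ⟨f, hf⟩ := key (1 : H →* Multiplicative ℤ)
      exact ⟨_, inferInstance, f, Amen.of_comm, fun u hu => absurd (one_mem _) hu⟩
    · obtain ⟨Γ, gΓ, q, ham, hq⟩ := hH h hh
      obtain ⟨f, hf⟩ := key q
      refine ⟨Γ, gΓ, f, ham, ?_⟩
      intro u hu a ha hfa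
      have ha' : a = 1 := by
        rcases Int.units_eq_one_or u with rfl | rfl
        · simpa using ha
        · simpa using ha
      subst ha'
      rw [hf, hf, map_one] at hfa
      exact hq (hfa ▸ IsOfFinOrder.one)

/-- The isomorphism `⟨x⟩ ≃ ⟨y⟩`, `x ↦ y`, for elements of infinite order. -/
theorem exists_zpowers_equiv {H : Type} [Group H] {x y : H} (hx : ¬ IsOfFinOrder x)
    (hy : ¬ IsOfFinOrder y) :
    ∃ φ : Subgroup.zpowers x ≃* Subgroup.zpowers y,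
      (φ ⟨x, Subgroup.mem_zpowers x⟩ : H) = y := by
  have h1 : ∀ a : Subgroup.zpowers x, a ∈ Subgroup.zpowers
      (⟨x, Subgroup.mem_zpowers x⟩ : Subgroup.zpowers x) := by
    rintro ⟨a, k, rfl⟩
    exact ⟨k, by ext; simp⟩
  have h2 : ∀ a : Subgroup.zpowers y, a ∈ Subgroup.zpowers
      (⟨y, Subgroup.mem_zpowers y⟩ : Subgroup.zpowers y) := by
    rintro ⟨a, k, rfl⟩
    exact ⟨k, by ext; simp⟩
  have h3 : orderOf (⟨x, Subgroup.mem_zpowers x⟩ : Subgroup.zpowers x) =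
      orderOf (⟨y, Subgroup.mem_zpowers y⟩ : Subgroup.zpowers y) := by
    rw [Subgroup.orderOf_mk, Subgroup.orderOf_mk, orderOf_eq_zero hx, orderOf_eq_zero hy]
  refine ⟨mulEquivOfOrderOfEq h1 h2 h3, ?_⟩
  rw [mulEquivOfOrderOfEq_apply_gen]

end Pool.Agent.H63RA
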