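import Pool.Agent.Lib.H63RA.Cyclic

/-! CHUNK P: one-relator presentations. -/

set_option autoImplicit false

open HNNExtension

namespace Pool.Agent.H63RA

theorem exists_desc {n : ℕ} {G : Type} [Group G] (w : FreeGroup (Fin n))
    (θ : FreeGroup (Fin n) →* G) (h : θ w = 1) :
    ∃ g : PresentedGroup ({w} : Set (FreeGroup (Fin n))) →* G,
      ∀ v, g (PresentedGroup.mk _ v) = θ v := by
  refine ⟨QuotientGroup.lift (Subgroup.normalClosure {w}) θ ?_, fun v => rfl⟩
  intro x hx
  have h1 : Subgroup.normalClosure {w} ≤ θ.ker := by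
    apply Subgroup.normalClosure_le_normal
    intro r hr
    rw [Set.mem_singleton_iff] at hr
    subst hr
    exact h
  exact h1 hx

theorem presented_hom_ext {n : ℕ} {G : Type} [Group G] {w : FreeGroup (Fin n)}
    {f g : PresentedGroup ({w} : Set (FreeGroup (Fin n))) →* G}
    (h : ∀ i, f (PresentedGroup.mk _ (FreeGroup.of i)) = g (PresentedGroup.mk _ (FreeGroup.of i))) :
    ∀ x, f x = g x := by
  have : f = g := PresentedGroup.ext h
  intro x; rw [this]

theorem zpowers_cond {H G : Type} [Group H] [Group G] {x y : H}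
    (φ : Subgroup.zpowers x ≃* Subgroup.zpowers y)
    (hφ : (φ ⟨x, Subgroup.mem_zpowers x⟩ : H) = y) (f : H →* G) (s : G)
    (h : s * f x = f y * s) : ∀ a : Subgroup.zpowers x, s * f ↑a = f (φ a : H) * s := by
  rintro ⟨a, k, rfl⟩
  have h1 : (φ ⟨x ^ k, k, rfl⟩ : H) = y ^ k := by
    have : (⟨x ^ k, k, rfl⟩ : Subgroup.zpowers x) = ⟨x, Subgroup.mem_zpowers x⟩ ^ k := by
      ext; simp
    rw [this, map_zpow, SubgroupClass.coe_zpow, hφ]
  have h2 : s * f (x ^ k) * s⁻¹ = f (y ^ k) := by
    rw [map_zpow, map_zpow, ← conj_zpow, h, mul_inv_cancel_right]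
  rw [h1, ← h2, inv_mul_cancel_right]

/-- `⟨x | w(x_j := x_j u x_j⁻¹)⟩` is the HNN extension of `H = ⟨x | w⟩` with `t u t⁻¹ = x_j`.
`F : G' → HNN`, `x_i ↦ x_i`, `x_j ↦ t` and `E : HNN → G'`, `x_i ↦ x_i`, `x_j ↦ x_j u x_j⁻¹`,
`t ↦ x_j` satisfy `E ∘ F = id`, so `F` is injective; `e = E ∘ of : H → G'` has `F ∘ e = of`, so
`e` is injective. -/
theorem sra_subst {n : ℕ} (j : Fin n) (w u : FreeGroup (Fin n))
    (hu : u ∈ Subgroup.closure (FreeGroup.of '' {i : Fin n | i ≠ j}))
    (hw : SRA (PresentedGroup ({w} : Set (FreeGroup (Fin n)))))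
    (hj : (PresentedGroup.of j : PresentedGroup ({w} : Set (FreeGroup (Fin n)))) ≠ 1)
    (hu1 : PresentedGroup.mk ({w} : Set (FreeGroup (Fin n))) u ≠ 1)
    (d : PresentedGroup ({w} : Set (FreeGroup (Fin n))) →* Multiplicative ℤ)
    (hd : d (PresentedGroup.of j) ≠ 1 ∨ d (PresentedGroup.mk _ u) ≠ 1) :
    SRA (PresentedGroup ({subst j u w} : Set (FreeGroup (Fin n)))) ∧
    ∃ e : PresentedGroup ({w} : Set (FreeGroup (Fin n))) →*
      PresentedGroup ({subst j u w} : Set (FreeGroup (Fin n))), Function.Injective e := by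
  obtain ⟨φ, hφ⟩ := exists_zpowers_equiv (hw.not_isOfFinOrder hu1) (hw.not_isOfFinOrder hj)
  have hsra := sra_hnn_cyclic hw hu1 hj d (Or.symm hd) φ hφ
  have hsu : subst j u u = u := by
    have h1 : ∀ v ∈ Subgroup.closure (FreeGroup.of '' {i : Fin n | i ≠ j}),
        subst j u v = (MonoidHom.id (FreeGroup (Fin n))) v :=
      MonoidHom.eqOn_closure (f := subst j u) (g := MonoidHom.id _) (by
        rintro _ ⟨i, hi, rfl⟩
        have : i ≠ j := hi
        simp [subst, this])
    exact h1 u hu
  -- the map `F`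
  let f : Fin n → HNNExtension (PresentedGroup ({w} : Set (FreeGroup (Fin n))))
      (Subgroup.zpowers (PresentedGroup.mk _ u)) (Subgroup.zpowers (PresentedGroup.of j)) φ :=
    fun i => if i = j then t else of (PresentedGroup.of i)
  have hfj : f j = t := by simp [f]
  have hfi : ∀ i, i ≠ j → f i = of (PresentedGroup.of i) := fun i hi => by simp [f, hi]
  have htu : t * of (PresentedGroup.mk _ u) = of (PresentedGroup.of j) *
      (t : HNNExtension (PresentedGroup ({w} : Set (FreeGroup (Fin n))))
      (Subgroup.zpowers (PresentedGroup.mk _ u)) (Subgroup.zpowers (PresentedGroup.of j)) φ) := by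
    have := t_mul_of (φ := φ) ⟨PresentedGroup.mk _ u, Subgroup.mem_zpowers _⟩
    rw [hφ] at this
    exact this
  have hfu : FreeGroup.lift f u = of (PresentedGroup.mk _ u) := by
    have h1 : ∀ v ∈ Subgroup.closure (FreeGroup.of '' {i : Fin n | i ≠ j}),
        FreeGroup.lift f v = (of.comp (PresentedGroup.mk _)) v :=
      MonoidHom.eqOn_closure (f := FreeGroup.lift f) (g := of.comp (PresentedGroup.mk _)) (by
        rintro _ ⟨i, hi, rfl⟩
        rw [FreeGroup.lift_apply_of, hfi i hi]
        rfl)
    exact h1 u hu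
  have hfs : ∀ v, FreeGroup.lift f (subst j u v) = of (PresentedGroup.mk _ v) := by
    have : (FreeGroup.lift f).comp (subst j u) = of.comp (PresentedGroup.mk _) := by
      apply FreeGroup.ext_hom
      intro i
      by_cases hi : i = j
      · subst hi
        simp only [MonoidHom.comp_apply, subst, FreeGroup.lift_apply_of, if_true, map_mul, map_inv]
        rw [hfj, hfu, htu, mul_inv_cancel_right]
        rfl
      · simp only [MonoidHom.comp_apply, subst, FreeGroup.lift_apply_of, if_neg hi]
        rw [hfi i hi]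
        rfl
    intro v
    exact DFunLike.congr_fun this v
  obtain ⟨F, hF⟩ := exists_desc (subst j u w) (FreeGroup.lift f) (by
    rw [hfs, PresentedGroup.one_of_mem (Set.mem_singleton w), map_one])
  -- the map `e`
  obtain ⟨e, he⟩ := exists_desc w ((PresentedGroup.mk {subst j u w}).comp (subst j u))
    (PresentedGroup.one_of_mem (Set.mem_singleton _))
  have heu : e (PresentedGroup.mk _ u) = PresentedGroup.mk _ u := by
    rw [he, MonoidHom.comp_apply, hsu]
  have hej : e (PresentedGroup.of j) = PresentedGroup.mk _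
      (FreeGroup.of j * u * (FreeGroup.of j)⁻¹) := by
    have : e (PresentedGroup.of j) = e (PresentedGroup.mk _ (FreeGroup.of j)) := rfl
    rw [this, he, MonoidHom.comp_apply]
    simp [subst]
  have hei : ∀ i, i ≠ j → e (PresentedGroup.of i) = PresentedGroup.of i := by
    intro i hi
    have : e (PresentedGroup.of i) = e (PresentedGroup.mk _ (FreeGroup.of i)) := rfl
    rw [this, he, MonoidHom.comp_apply]
    simp only [subst, FreeGroup.lift_apply_of, if_neg hi]
    rfl
  let E := HNNExtension.lift e (PresentedGroup.mk _ (FreeGroup.of j)) (zpowers_cond φ hφ e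
    (PresentedGroup.mk _ (FreeGroup.of j)) (by
      rw [heu, hej, ← map_mul, ← map_mul, inv_mul_cancel_right]))
  have hEF : ∀ x, E (F x) = x := by
    have := presented_hom_ext (f := E.comp F) (g := MonoidHom.id _) (by
      intro i
      rw [MonoidHom.comp_apply, hF, FreeGroup.lift_apply_of]
      by_cases hi : i = j
      · subst hi
        rw [hfj]
        exact lift_t _ _ _
      · rw [hfi i hi]
        refine (lift_of _ _ _ _).trans ?_
        rw [hei i hi]
        rfl)
    exact this
  have hFe : ∀ x, F (e x) = of x := by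
    have := presented_hom_ext (f := F.comp e) (g := of) (by
      intro i
      rw [MonoidHom.comp_apply, he, MonoidHom.comp_apply, hF, hfs])
    exact this
  refine ⟨hsra.of_injective F (Function.LeftInverse.injective hEF), e, ?_⟩
  intro a b hab
  have := congrArg F hab
  rw [hFe, hFe] at this
  exact HNNExtension.of_injective _ this

/-- `⟨x | w(x_j := x_j ^ k)⟩` is `H *_{x_j = c^k} ⟨c⟩`. Let `L = HNNExtension H ⊥ ⊥ _ = H * ⟨c⟩`
(`c = t`), and `HNN(L; c^k → x_j)` with stable letter `T` (`d : L → ℤ` kills `H`, `c ↦ 1`).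
`F : G' → HNN`, `x_i ↦ x_i`, `x_j ↦ T c T⁻¹`; `E : HNN → G'`, `x_i ↦ x_i`, `x_j ↦ x_j^k`, `c ↦ x_j`,
`T ↦ 1`; `E ∘ F = id`. `e : H → G'`, `x_j ↦ x_j ^ k` is injective as `F ∘ e = of ∘ of`. -/
theorem sra_powSubst {n : ℕ} (j : Fin n) (w : FreeGroup (Fin n)) (k : ℤ) (hk : k ≠ 0)
    (hw : SRA (PresentedGroup ({w} : Set (FreeGroup (Fin n)))))
    (hj : (PresentedGroup.of j : PresentedGroup ({w} : Set (FreeGroup (Fin n)))) ≠ 1) :
    SRA (PresentedGroup ({powSubst j k w} : Set (FreeGroup (Fin n)))) ∧
    ∃ e : PresentedGroup ({w} : Set (FreeGroup (Fin n))) →*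
      PresentedGroup ({powSubst j k w} : Set (FreeGroup (Fin n))), Function.Injective e := by
  set H := PresentedGroup ({w} : Set (FreeGroup (Fin n))) with hH
  let L := HNNExtension H ⊥ ⊥ (MulEquiv.refl (⊥ : Subgroup H))
  have hL : SRA L := sra_hnn_bot hw _
  let c : L := t
  let d : L →* Multiplicative ℤ := HNNExtension.lift 1 (Multiplicative.ofAdd 1) (by intro a; simp)
  have hdc : d (c ^ k) ≠ 1 := by
    have h1 : d c = Multiplicative.ofAdd 1 := lift_t _ _ _
    rw [map_zpow, h1, ← ofAdd_zsmul, smul_eq_mul, mul_one]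
    intro h
    exact hk (by simpa using h)
  have hc : c ^ k ≠ 1 := fun h => hdc (by rw [h, map_one])
  let y : L := of (PresentedGroup.of j)
  have hy : y ≠ 1 := by
    intro h
    apply hj
    apply HNNExtension.of_injective (φ := MulEquiv.refl (⊥ : Subgroup H))
    rw [map_one]
    exact h
  obtain ⟨φ, hφ⟩ := exists_zpowers_equiv (hL.not_isOfFinOrder hc) (hL.not_isOfFinOrder hy)
  have hsra := sra_hnn_cyclic hL hc hy d (Or.inl hdc) φ hφ
  set M := HNNExtension L (Subgroup.zpowers (c ^ k)) (Subgroup.zpowers y) φ with hM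
  let ofM : L →* M := of
  let tM : M := t
  let i2 : H →* M := ofM.comp of
  have hi2 : Function.Injective i2 := (HNNExtension.of_injective φ).comp
    (HNNExtension.of_injective (MulEquiv.refl (⊥ : Subgroup H)))
  have htc : tM * ofM (c ^ k) = ofM y * tM := by
    have := t_mul_of (φ := φ) ⟨c ^ k, Subgroup.mem_zpowers _⟩
    rw [hφ] at this
    exact this
  let f : Fin n → M := fun i => if i = j then tM * ofM c * tM⁻¹ else i2 (PresentedGroup.of i)
  have hfj : f j = tM * ofM c * tM⁻¹ := by simp [f]
  have hfi : ∀ i, i ≠ j → f i = i2 (PresentedGroup.of i) := fun i hi => by simp [f, hi]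
  have hfs : ∀ v, FreeGroup.lift f (powSubst j k v) = i2 (PresentedGroup.mk _ v) := by
    have : (FreeGroup.lift f).comp (powSubst j k) = i2.comp (PresentedGroup.mk _) := by
      apply FreeGroup.ext_hom
      intro i
      by_cases hi : i = j
      · subst hi
        simp only [MonoidHom.comp_apply, powSubst, FreeGroup.lift_apply_of, if_true, map_zpow]
        rw [hfj, conj_zpow, ← map_zpow, htc, mul_inv_cancel_right]
        rfl
      · simp only [MonoidHom.comp_apply, powSubst, FreeGroup.lift_apply_of, if_neg hi]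
        rw [hfi i hi]
        rfl
    intro v
    exact DFunLike.congr_fun this v
  obtain ⟨F, hF⟩ := exists_desc (powSubst j k w) (FreeGroup.lift f) (by
    rw [hfs, PresentedGroup.one_of_mem (Set.mem_singleton w), map_one])
  obtain ⟨e, he⟩ := exists_desc w ((PresentedGroup.mk {powSubst j k w}).comp (powSubst j k))
    (PresentedGroup.one_of_mem (Set.mem_singleton _))
  have hej : e (PresentedGroup.of j) = (PresentedGroup.mk _ (FreeGroup.of j)) ^ k := by
    have : e (PresentedGroup.of j) = e (PresentedGroup.mk _ (FreeGroup.of j)) := rfl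
    rw [this, he, MonoidHom.comp_apply, ← map_zpow]
    simp only [powSubst, FreeGroup.lift_apply_of, if_true]
  have hei : ∀ i, i ≠ j → e (PresentedGroup.of i) = PresentedGroup.of i := by
    intro i hi
    have : e (PresentedGroup.of i) = e (PresentedGroup.mk _ (FreeGroup.of i)) := rfl
    rw [this, he, MonoidHom.comp_apply]
    simp only [powSubst, FreeGroup.lift_apply_of, if_neg hi]
    rfl
  let E1 : L →* PresentedGroup ({powSubst j k w} : Set (FreeGroup (Fin n))) :=
    HNNExtension.lift e (PresentedGroup.mk _ (FreeGroup.of j)) (by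
      rintro ⟨a, ha⟩
      rw [Subgroup.mem_bot] at ha
      subst ha
      simp)
  have hE1c : E1 c = PresentedGroup.mk _ (FreeGroup.of j) := lift_t _ _ _
  have hE1 : ∀ h : H, E1 (of h) = e h := fun h => lift_of _ _ _ _
  let E : M →* PresentedGroup ({powSubst j k w} : Set (FreeGroup (Fin n))) :=
    HNNExtension.lift E1 1 (zpowers_cond φ hφ E1 1 (by
      rw [map_zpow, hE1c, one_mul, mul_one]
      exact hej.symm))
  have hEt : E tM = 1 := lift_t _ _ _
  have hEo : ∀ z : L, E (ofM z) = E1 z := fun z => lift_of _ _ _ _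
  have hEF : ∀ x, E (F x) = x := by
    have := presented_hom_ext (f := E.comp F) (g := MonoidHom.id _) (by
      intro i
      rw [MonoidHom.comp_apply, hF, FreeGroup.lift_apply_of]
      by_cases hi : i = j
      · subst hi
        rw [hfj, map_mul, map_mul, map_inv, hEt, hEo, hE1c]
        simp
      · rw [hfi i hi]
        change E (ofM (of (PresentedGroup.of i))) = _
        rw [hEo, hE1, hei i hi]
        rfl)
    exact this
  have hFe : ∀ x, F (e x) = i2 x := by
    have := presented_hom_ext (f := F.comp e) (g := i2) (by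
      intro i
      rw [MonoidHom.comp_apply, he, MonoidHom.comp_apply, hF, hfs])
    exact this
  refine ⟨hsra.of_injective F (Function.LeftInverse.injective hEF), e, ?_⟩
  intro a b hab
  have := congrArg F hab
  rw [hFe, hFe] at this
  exact hi2 this

end Pool.Agent.H63RA
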