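import Pool.Agent.Lib.H63RA.Colim

/-! CHUNK E (helper63): the retract amalgamation `Ext r γ = Ind r γ ⋊ Q` and telescoping. -/

set_option autoImplicit false

namespace Pool.Agent.H63RA

variable {G₀ Q R : Type} [Group G₀] [Group Q] [Group R]

/-- `r` is a retraction and `γ` has the same kernel as `r`. -/
structure RH (r : G₀ →* G₀) (γ : G₀ →* Q) : Prop where
  rr : ∀ g, r (r g) = r g
  γr : ∀ g, γ (r g) = γ g
  ker : ∀ g, γ g = 1 → r g = 1

namespace RH

variable {r : G₀ →* G₀} {γ : G₀ →* Q}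

theorem r_eq (h : RH r γ) {g g' : G₀} (hg : γ g = γ g') : r g = r g' := by
  have h1 : γ (g⁻¹ * g') = 1 := by rw [map_mul, map_inv, hg, inv_mul_cancel]
  have h2 := h.ker _ h1
  rw [map_mul, map_inv, inv_mul_eq_one] at h2
  exact h2

theorem γ_κ (h : RH r γ) (g : G₀) : γ (g * (r g)⁻¹) = 1 := by
  rw [map_mul, map_inv, h.γr, mul_inv_cancel]

end RH

/-- The induced group: equivariant functions `Q → ker γ` supported on finitely many cosets of the
image of `γ`. -/
def Ind (r : G₀ →* G₀) (γ : G₀ →* Q) : Subgroup (Q → G₀) where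
  carrier := {f | (∀ x, γ (f x) = 1) ∧ (∀ x g, f (x * γ g) = (r g)⁻¹ * f x * r g) ∧
    ∃ F : Finset Q, ∀ x, f x ≠ 1 → ∃ y ∈ F, ∃ g, x = y * γ g}
  one_mem' := ⟨by simp, by simp, ∅, by simp⟩
  mul_mem' := by
    classical
    rintro f f' ⟨h1, h2, F, h3⟩ ⟨h1', h2', F', h3'⟩
    refine ⟨fun x => ?_, fun x g => ?_, F ∪ F', fun x hx => ?_⟩
    · simp [h1, h1']
    · simp only [Pi.mul_apply, h2, h2']; group
    · by_cases h : f x = 1
      · obtain ⟨y, hy, g, hg⟩ := h3' x (by intro h'; apply hx; simp [h, h'])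
        exact ⟨y, Finset.mem_union_right _ hy, g, hg⟩
      · obtain ⟨y, hy, g, hg⟩ := h3 x h
        exact ⟨y, Finset.mem_union_left _ hy, g, hg⟩
  inv_mem' := by
    rintro f ⟨h1, h2, F, h3⟩
    refine ⟨fun x => ?_, fun x g => ?_, F, fun x hx => ?_⟩
    · simp [h1]
    · simp only [Pi.inv_apply, h2]; group
    · exact h3 x (by simpa using hx)

theorem Ind.mem_iff {r : G₀ →* G₀} {γ : G₀ →* Q} {f : Q → G₀} : f ∈ Ind r γ ↔
    (∀ x, γ (f x) = 1) ∧ (∀ x g, f (x * γ g) = (r g)⁻¹ * f x * r g) ∧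
    ∃ F : Finset Q, ∀ x, f x ≠ 1 → ∃ y ∈ F, ∃ g, x = y * γ g := Iff.rfl

theorem Ind.translate_mem {r : G₀ →* G₀} {γ : G₀ →* Q} {f : Q → G₀} (hf : f ∈ Ind r γ) (q : Q) :
    (fun x => f (q * x)) ∈ Ind r γ := by
  classical
  obtain ⟨h1, h2, F, h3⟩ := hf
  refine ⟨fun x => h1 _, fun x g => ?_, F.image (fun y => q⁻¹ * y), fun x hx => ?_⟩
  · show f (q * (x * γ g)) = _
    rw [← mul_assoc, h2]
  · obtain ⟨y, hy, g, hg⟩ := h3 _ hx
    refine ⟨q⁻¹ * y, Finset.mem_image_of_mem _ hy, g, ?_⟩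
    rw [mul_assoc, ← hg, inv_mul_cancel_left]

/-- The left translation action. -/
def act (r : G₀ →* G₀) (γ : G₀ →* Q) : Q →* MulAut (Ind r γ) where
  toFun q :=
    { toFun := fun f => ⟨fun x => f.1 (q⁻¹ * x), Ind.translate_mem f.2 q⁻¹⟩
      invFun := fun f => ⟨fun x => f.1 (q * x), Ind.translate_mem f.2 q⟩
      left_inv := fun f => by ext x; simp
      right_inv := fun f => by ext x; simp
      map_mul' := fun f g => by ext x; simp }
  map_one' := by ext f x; simp
  map_mul' := fun q q' => by ext f x; simp [mul_assoc]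

@[simp] theorem act_apply (r : G₀ →* G₀) (γ : G₀ →* Q) (q : Q) (f : Ind r γ) (x : Q) :
    ((act r γ q f : Ind r γ) : Q → G₀) x = (f : Q → G₀) (q⁻¹ * x) := rfl

/-- The amalgam. -/
abbrev Ext (r : G₀ →* G₀) (γ : G₀ →* Q) : Type := Ind r γ ⋊[act r γ] Q

theorem amen_Ind (hG : Amen G₀) (r : G₀ →* G₀) (γ : G₀ →* Q) : Amen (Ind r γ) := by
  classical
  apply Amen.of_local
  intro S
  have hF : ∀ f : Ind r γ, ∃ F : Finset Q, ∀ x, (f : Q → G₀) x ≠ 1 → ∃ y ∈ F, ∃ g, x = y * γ g :=
    fun f => f.2.2.2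
  choose F hF using hF
  let T : Finset Q := S.biUnion F
  let K : Subgroup (Ind r γ) :=
    { carrier := {f | ∀ x, (f : Q → G₀) x ≠ 1 → ∃ y ∈ T, ∃ g, x = y * γ g}
      one_mem' := by simp
      mul_mem' := by
        intro f f' h h' x hx
        by_cases h0 : (f : Q → G₀) x = 1
        · apply h'
          intro h1
          apply hx
          simp [h0, h1]
        · exact h x h0
      inv_mem' := by
        intro f h x hx
        exact h x (by simpa using hx) }
  refine ⟨K, fun f hf x hx => ?_, ?_⟩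
  · obtain ⟨y, hy, g, hg⟩ := hF f x hx
    exact ⟨y, Finset.mem_biUnion.2 ⟨f, hf, hy⟩, g, hg⟩
  · let ev : K →* (T → G₀) :=
      { toFun := fun f y => ((f : Ind r γ) : Q → G₀) y
        map_one' := by ext; simp
        map_mul' := fun f g => by ext; simp }
    refine Amen.of_injective (Amen.pi (ι := T) hG) ev ?_
    rw [injective_iff_map_eq_one]
    intro f hf
    ext x
    by_contra hx
    obtain ⟨y, hy, g, hg⟩ := f.2 x hx
    have h1 : ((f : Ind r γ) : Q → G₀) y = 1 := congrFun hf ⟨y, hy⟩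
    have h2 := f.1.2.2.1 y g
    rw [← hg, h1] at h2
    apply hx
    rw [h2]; simp

theorem amen_Ext (hG : Amen G₀) (hQ : Amen Q) (r : G₀ →* G₀) (γ : G₀ →* Q) : Amen (Ext r γ) :=
  Amen.semidirect _ (amen_Ind hG r γ) hQ

open Classical in
/-- The function supported on the image of `γ` with value `k` at `1`. -/
noncomputable def delta (r : G₀ →* G₀) (γ : G₀ →* Q) (k : G₀) : Q → G₀ :=
  fun x => if h : ∃ g, γ g = x then (r h.choose)⁻¹ * k * r h.choose else 1

theorem delta_apply {r : G₀ →* G₀} {γ : G₀ →* Q} (h : RH r γ) (k g : G₀) :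
    delta r γ k (γ g) = (r g)⁻¹ * k * r g := by
  have hex : ∃ g', γ g' = γ g := ⟨g, rfl⟩
  rw [delta, dif_pos hex, h.r_eq hex.choose_spec]

theorem delta_of_not {r : G₀ →* G₀} {γ : G₀ →* Q} (k : G₀) {x : Q} (hx : ¬ ∃ g, γ g = x) :
    delta r γ k x = 1 := by
  rw [delta, dif_neg hx]

theorem delta_one {r : G₀ →* G₀} {γ : G₀ →* Q} : delta r γ 1 = 1 := by
  ext x
  rw [delta]
  split_ifs <;> simp

theorem delta_mem {r : G₀ →* G₀} {γ : G₀ →* Q} (h : RH r γ) {k : G₀} (hk : γ k = 1) :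
    delta r γ k ∈ Ind r γ := by
  refine ⟨fun x => ?_, fun x g => ?_, {1}, fun x hx => ?_⟩
  · by_cases hx : ∃ g, γ g = x
    · obtain ⟨g, rfl⟩ := hx
      rw [delta_apply h]
      simp [hk]
    · rw [delta_of_not k hx, map_one]
  · by_cases hx : ∃ g, γ g = x
    · obtain ⟨g', rfl⟩ := hx
      rw [← map_mul, delta_apply h, delta_apply h]
      simp only [map_mul]
      group
    · have hx' : ¬ ∃ g', γ g' = x * γ g := by
        rintro ⟨g', hg'⟩
        exact hx ⟨g' * g⁻¹, by rw [map_mul, hg', map_inv, mul_inv_cancel_right]⟩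
      rw [delta_of_not k hx, delta_of_not k hx']
      simp
  · by_contra hcon
    apply hx
    apply delta_of_not
    rintro ⟨g, hg⟩
    exact hcon ⟨1, Finset.mem_singleton_self _, g, by rw [one_mul, hg]⟩

/-- The embedding of `G₀` in `Ext r γ`. -/
noncomputable def jmap {r : G₀ →* G₀} {γ : G₀ →* Q} (h : RH r γ) : G₀ →* Ext r γ :=
  MonoidHom.mk' (fun g => ⟨⟨delta r γ (g * (r g)⁻¹), delta_mem h (h.γ_κ g)⟩, γ g⟩) (by
    intro g g'
    refine SemidirectProduct.ext ?_ ?_
    · ext x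
      simp only [SemidirectProduct.mul_left, Subgroup.coe_mul, Pi.mul_apply, act_apply]
      by_cases hx : ∃ g₁, γ g₁ = x
      · obtain ⟨g₁, rfl⟩ := hx
        have e : (γ g)⁻¹ * γ g₁ = γ (g⁻¹ * g₁) := by rw [map_mul, map_inv]
        rw [e, delta_apply h, delta_apply h, delta_apply h]
        simp only [map_mul, map_inv]
        group
      · have hx' : ¬ ∃ g₁, γ g₁ = (γ g)⁻¹ * x := by
          rintro ⟨g₁, hg₁⟩
          exact hx ⟨g * g₁, by rw [map_mul, hg₁, mul_inv_cancel_left]⟩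
        rw [delta_of_not _ hx, delta_of_not _ hx, delta_of_not _ hx']
        simp
    · simp)

theorem jmap_left {r : G₀ →* G₀} {γ : G₀ →* Q} (h : RH r γ) (g : G₀) :
    ((jmap h g).left : Q → G₀) = delta r γ (g * (r g)⁻¹) := rfl

theorem jmap_right {r : G₀ →* G₀} {γ : G₀ →* Q} (h : RH r γ) (g : G₀) :
    (jmap h g).right = γ g := rfl

theorem jmap_injective {r : G₀ →* G₀} {γ : G₀ →* Q} (h : RH r γ) :
    Function.Injective (jmap h) := by
  rw [injective_iff_map_eq_one]
  intro g hg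
  have h1 : γ g = 1 := by
    have := congrArg SemidirectProduct.right hg
    simpa [jmap_right] using this
  have h2 : r g = 1 := h.ker g h1
  have h3 : delta r γ (g * (r g)⁻¹) (γ 1) = 1 := by
    have := congrArg (fun z : Ext r γ => (z.left : Q → G₀) (γ 1)) hg
    simpa [jmap_left] using this
  rw [delta_apply h] at h3
  simpa [h2] using h3

theorem jmap_r {r : G₀ →* G₀} {γ : G₀ →* Q} (h : RH r γ) (g : G₀) :
    jmap h (r g) = SemidirectProduct.inr (γ g) := by
  refine SemidirectProduct.ext ?_ ?_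
  · ext x
    rw [jmap_left, h.rr, mul_inv_cancel, delta_one]
    simp
  · rw [jmap_right, h.γr]; simp

/-- Amalgamation over a retract. `r` is a retraction of `G₀` (onto its range `B`), `γ : G₀ → Q` has
the same kernel as `r` (so `γ` is injective on `B`). Then `G₀` and `Q` embed into an amenable group
with `b = γ b` for `b ∈ B`. -/
theorem exists_amalgam {G₀ Q : Type} [Group G₀] [Group Q] (hG : Amen G₀) (hQ : Amen Q)
    (r : G₀ →* G₀) (γ : G₀ →* Q) (hrr : ∀ g, r (r g) = r g) (hγr : ∀ g, γ (r g) = γ g)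
    (hker : ∀ g, γ g = 1 → r g = 1) :
    ∃ (E : Type) (_ : Group E) (j : G₀ →* E) (k : Q →* E), Amen E ∧ Function.Injective j ∧
      Function.Injective k ∧ ∀ g, j (r g) = k (γ g) :=
  have h : RH r γ := ⟨hrr, hγr, hker⟩
  ⟨Ext r γ, inferInstance, jmap h, SemidirectProduct.inr, amen_Ext hG hQ r γ, jmap_injective h,
    SemidirectProduct.inr_injective, jmap_r h⟩

/-! ### Functoriality in `Q` -/

open Classical in
/-- Extension by `1` along `s`. -/
noncomputable def push (s : Q →* R) (f : Q → G₀) : R → G₀ :=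
  fun y => if h : ∃ x, s x = y then f h.choose else 1

theorem push_apply (s : Q →* R) (hs : Function.Injective s) (f : Q → G₀) (x : Q) :
    push s f (s x) = f x := by
  have hex : ∃ x', s x' = s x := ⟨x, rfl⟩
  rw [push, dif_pos hex, hs hex.choose_spec]

theorem push_of_not (s : Q →* R) (f : Q → G₀) {y : R} (hy : ¬ ∃ x, s x = y) :
    push s f y = 1 := by
  rw [push, dif_neg hy]

theorem push_mem {r : G₀ →* G₀} {γ : G₀ →* Q} {γ' : G₀ →* R} (s : Q →* R)
    (hs : Function.Injective s) (hγ : ∀ g, s (γ g) = γ' g) {f : Q → G₀} (hf : f ∈ Ind r γ) :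
    push s f ∈ Ind r γ' := by
  classical
  obtain ⟨h1, h2, F, h3⟩ := hf
  refine ⟨fun y => ?_, fun y g => ?_, F.image s, fun y hy => ?_⟩
  · by_cases hy : ∃ x, s x = y
    · obtain ⟨x, rfl⟩ := hy
      rw [push_apply s hs, ← hγ, h1, map_one]
    · rw [push_of_not s f hy, map_one]
  · by_cases hy : ∃ x, s x = y
    · obtain ⟨x, rfl⟩ := hy
      rw [← hγ, ← map_mul, push_apply s hs, push_apply s hs, h2]
    · have hy' : ¬ ∃ x, s x = y * γ' g := by
        rintro ⟨x, hx⟩
        exact hy ⟨x * (γ g)⁻¹, by rw [map_mul, hx, map_inv, hγ, mul_inv_cancel_right]⟩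
      rw [push_of_not s f hy, push_of_not s f hy']
      simp
  · by_cases h : ∃ x, s x = y
    · obtain ⟨x, rfl⟩ := h
      rw [push_apply s hs] at hy
      obtain ⟨z, hz, g, hg⟩ := h3 x hy
      exact ⟨s z, Finset.mem_image_of_mem _ hz, g, by rw [hg, map_mul, hγ]⟩
    · exact absurd (push_of_not s f h) hy

/-- Functoriality of `Ext`. -/
noncomputable def extMap {r : G₀ →* G₀} {γ : G₀ →* Q} {γ' : G₀ →* R} (s : Q →* R)
    (hs : Function.Injective s) (hγ : ∀ g, s (γ g) = γ' g) : Ext r γ →* Ext r γ' :=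
  MonoidHom.mk' (fun z => ⟨⟨push s (z.left : Q → G₀), push_mem s hs hγ z.left.2⟩, s z.right⟩) (by
    intro z z'
    refine SemidirectProduct.ext ?_ ?_
    · ext y
      simp only [SemidirectProduct.mul_left, Subgroup.coe_mul, Pi.mul_apply, act_apply]
      by_cases hy : ∃ x, s x = y
      · obtain ⟨x, rfl⟩ := hy
        have e : (s z.right)⁻¹ * s x = s (z.right⁻¹ * x) := by rw [map_mul, map_inv]
        rw [e, push_apply s hs, push_apply s hs, push_apply s hs]
        simp
      · have hy' : ¬ ∃ x, s x = (s z.right)⁻¹ * y := by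
          rintro ⟨x, hx⟩
          exact hy ⟨z.right * x, by rw [map_mul, hx, mul_inv_cancel_left]⟩
        rw [push_of_not _ _ hy, push_of_not _ _ hy, push_of_not _ _ hy']
        simp
    · simp)

theorem extMap_left {r : G₀ →* G₀} {γ : G₀ →* Q} {γ' : G₀ →* R} (s : Q →* R)
    (hs : Function.Injective s) (hγ : ∀ g, s (γ g) = γ' g) (z : Ext r γ) :
    ((extMap s hs hγ z).left : R → G₀) = push s (z.left : Q → G₀) := rfl

theorem extMap_right {r : G₀ →* G₀} {γ : G₀ →* Q} {γ' : G₀ →* R} (s : Q →* R)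
    (hs : Function.Injective s) (hγ : ∀ g, s (γ g) = γ' g) (z : Ext r γ) :
    (extMap s hs hγ z).right = s z.right := rfl

theorem extMap_injective {r : G₀ →* G₀} {γ : G₀ →* Q} {γ' : G₀ →* R} (s : Q →* R)
    (hs : Function.Injective s) (hγ : ∀ g, s (γ g) = γ' g) :
    Function.Injective (extMap (r := r) s hs hγ) := by
  intro z z' h
  refine SemidirectProduct.ext ?_ ?_
  · ext x
    have := congrArg (fun w : Ext r γ' => (w.left : R → G₀) (s x)) h
    simpa only [extMap_left, push_apply s hs] using this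
  · have := congrArg SemidirectProduct.right h
    rw [extMap_right, extMap_right] at this
    exact hs this

theorem extMap_inr {r : G₀ →* G₀} {γ : G₀ →* Q} {γ' : G₀ →* R} (s : Q →* R)
    (hs : Function.Injective s) (hγ : ∀ g, s (γ g) = γ' g) (q : Q) :
    extMap (r := r) s hs hγ (SemidirectProduct.inr q) = SemidirectProduct.inr (s q) := by
  refine SemidirectProduct.ext ?_ ?_
  · ext y
    rw [extMap_left]
    by_cases hy : ∃ x, s x = y
    · obtain ⟨x, rfl⟩ := hy
      rw [push_apply s hs]; simp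
    · rw [push_of_not _ _ hy]; simp
  · rw [extMap_right]; simp

theorem extMap_jmap {r : G₀ →* G₀} {γ : G₀ →* Q} {γ' : G₀ →* R} (s : Q →* R)
    (hs : Function.Injective s) (hγ : ∀ g, s (γ g) = γ' g) (h : RH r γ) (h' : RH r γ') (g : G₀) :
    extMap s hs hγ (jmap h g) = jmap h' g := by
  refine SemidirectProduct.ext ?_ ?_
  · ext y
    rw [extMap_left, jmap_left, jmap_left]
    by_cases hy : ∃ x, s x = y
    · obtain ⟨x, rfl⟩ := hy
      rw [push_apply s hs]
      by_cases hx : ∃ g, γ g = x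
      · obtain ⟨g', rfl⟩ := hx
        rw [delta_apply h, hγ, delta_apply h']
      · have hx' : ¬ ∃ g, γ' g = s x := by
          rintro ⟨g', hg'⟩
          exact hx ⟨g', hs (by rw [hγ, hg'])⟩
        rw [delta_of_not _ hx, delta_of_not _ hx']
    · have hy' : ¬ ∃ g, γ' g = y := by
        rintro ⟨g', hg'⟩
        exact hy ⟨γ g', by rw [hγ, hg']⟩
      rw [push_of_not _ _ hy, delta_of_not _ hy']
  · rw [extMap_right, jmap_right, jmap_right, hγ]

/-! ### Telescoping -/

/-- The data of the telescoping construction. -/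
structure TD (r ε : G₀ →* G₀) : Prop where
  am : Amen G₀
  rr : ∀ g, r (r g) = r g
  εr : ∀ g, ε (r g) = ε g
  ker : ∀ g, ε g = 1 → r g = 1

/-- An amenable group with an embedding of `G₀`. -/
structure Stage (G₀ : Type) [Group G₀] where
  Q : Type
  inst : Group Q
  j : G₀ →* Q
  inj : Function.Injective j
  am : Amen Q

attribute [instance] Stage.inst

theorem TD.rh {r ε : G₀ →* G₀} (h : TD r ε) (S : Stage G₀) : RH r (S.j.comp ε) where
  rr := h.rr
  γr := fun g => by simp [h.εr]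
  ker := fun g hg => h.ker g (S.inj (by rw [map_one]; exact hg))

/-- The next stage. -/
noncomputable def nextStage {r ε : G₀ →* G₀} (h : TD r ε) (S : Stage G₀) : Stage G₀ :=
  ⟨Ext r (S.j.comp ε), inferInstance, jmap (h.rh S), jmap_injective (h.rh S),
    amen_Ext h.am S.am r (S.j.comp ε)⟩

/-- The sequence of stages. -/
noncomputable def stage {r ε : G₀ →* G₀} (h : TD r ε) : ℕ → Stage G₀
  | 0 => ⟨G₀, inferInstance, MonoidHom.id G₀, Function.injective_id, h.am⟩
  | n + 1 => nextStage h (stage h n)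

/-- The inclusion of a stage as second factor of the next. -/
noncomputable def iMap {r ε : G₀ →* G₀} (h : TD r ε) (n : ℕ) :
    (stage h n).Q →* (stage h (n + 1)).Q :=
  (SemidirectProduct.inr : (stage h n).Q →* Ext r ((stage h n).j.comp ε))

/-- The shift embedding of a stage in the next. -/
noncomputable def sMap {r ε : G₀ →* G₀} (h : TD r ε) : ∀ n : ℕ,
    {s : (stage h n).Q →* (stage h (n + 1)).Q //
      Function.Injective s ∧ ∀ g, s ((stage h n).j g) = (stage h (n + 1)).j g}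
  | 0 => ⟨jmap (h.rh (stage h 0)), jmap_injective _, fun _ => rfl⟩
  | n + 1 => ⟨(extMap (r := r) (γ := (stage h n).j.comp ε) (γ' := (stage h (n + 1)).j.comp ε)
      (sMap h n).1 (sMap h n).2.1 (fun g => (sMap h n).2.2 (ε g)) :
        Ext r ((stage h n).j.comp ε) →* Ext r ((stage h (n + 1)).j.comp ε)),
      extMap_injective _ _ _, fun g => extMap_jmap _ _ _ (h.rh (stage h n))
        (h.rh (stage h (n + 1))) g⟩

/-- Telescoping. `r` is a retraction of the amenable group `G₀` and `ε` an endomorphism with the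
same kernel. Then in some amenable overgroup `b ↦ ε b` (`b` in the range of `r`) is a
conjugation. -/
theorem telescoping {G₀ : Type} [Group G₀] (hG : Amen G₀) (r ε : G₀ →* G₀)
    (hrr : ∀ g, r (r g) = r g) (hεr : ∀ g, ε (r g) = ε g) (hker : ∀ g, ε g = 1 → r g = 1) :
    ∃ (Γ : Type) (_ : Group Γ) (ι : G₀ →* Γ) (s : Γ), Amen Γ ∧ Function.Injective ι ∧
      ∀ g, s * ι (r g) * s⁻¹ = ι (ε g) := by
  have h : TD r ε := ⟨hG, hrr, hεr, hker⟩
  obtain ⟨Γ, inst, v, w, s, hΓ, hv, h1, h2⟩ := exists_doubleColim (fun n => (stage h n).Q)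
    (iMap h) (fun n => (sMap h n).1) (fun n => SemidirectProduct.inr_injective)
    (fun n => (sMap h n).2.1)
    (fun n q => extMap_inr _ (sMap h n).2.1 (fun g => (sMap h n).2.2 (ε g)) q)
    (fun n => (stage h n).am)
  exact ⟨Γ, inst, v, s, hΓ, hv, fun g =>
    (h2 (r g)).symm.trans ((congrArg w (jmap_r (h.rh (stage h 0)) g)).trans (h1 (ε g)))⟩

end Pool.Agent.H63RA
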