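import Mathlib

/-!
# Strong residual amenability: definitions

`Amen G` is Følner's condition exactly as in the frozen statement S02693.
`SRA G` (strongly residually amenable): every `g ≠ 1` has an image of infinite order in
some amenable group.
-/

set_option autoImplicit false

namespace Pool.Agent.H63RA

/-- Følner's condition: the discrete group `G` is amenable. -/
def Amen (G : Type) [Group G] : Prop :=
  ∀ (S : Finset G) (ε : ℝ), 0 < ε → ∃ F : Finset G, F.Nonempty ∧
    ∀ s ∈ S,
      ((((fun x : G => s * x) '' (F : Set G)) \ (F : Set G)).ncard : ℝ) < ε * (F.card : ℝ)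

/-- Every non-trivial element has an image of infinite order in some amenable group. -/
def SRA (G : Type) [Group G] : Prop :=
  ∀ g : G, g ≠ 1 → ∃ (Γ : Type) (_ : Group Γ) (f : G →* Γ), Amen Γ ∧ ¬ IsOfFinOrder (f g)

open HNNExtension

variable {H : Type} [Group H] {A B : Subgroup H}

/-- The relation `t^u h` may be followed by `t^v` of Britton-reduced words. -/
def Red (A B : Subgroup H) (p q : ℤˣ × H) : Prop := p.2 ∈ toSubgroup A B p.1 → p.1 = q.1

/-- The element `t^{u₁} h₁ t^{u₂} h₂ ⋯` of the HNN extension. -/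
def wprod (φ : A ≃* B) (l : List (ℤˣ × H)) : HNNExtension H A B φ :=
  (l.map (fun x => t ^ (x.1 : ℤ) * of x.2)).prod

/-- `f` separates `h` from `A` (if `h ∉ A`) and from `B` (if `h ∉ B`). -/
def Good {φ : A ≃* B} {Γ : Type} [Group Γ] (f : HNNExtension H A B φ →* Γ) (h : H) : Prop :=
  ∀ u : ℤˣ, h ∉ toSubgroup A B u → ∀ a ∈ toSubgroup A B u, f (of h) ≠ f (of a)

/-- The substitution `x_j ↦ x_j u x_j⁻¹`, all other letters fixed. -/
def subst {n : ℕ} (j : Fin n) (u : FreeGroup (Fin n)) : FreeGroup (Fin n) →* FreeGroup (Fin n) :=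
  FreeGroup.lift (fun i => if i = j then FreeGroup.of j * u * (FreeGroup.of j)⁻¹
    else FreeGroup.of i)

/-- The substitution `x_j ↦ x_j ^ k`, all other letters fixed. -/
def powSubst {n : ℕ} (j : Fin n) (k : ℤ) : FreeGroup (Fin n) →* FreeGroup (Fin n) :=
  FreeGroup.lift (fun i => if i = j then (FreeGroup.of j) ^ k else FreeGroup.of i)

end Pool.Agent.H63RA
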