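import Pool.Agent.Lib.H63RA.Amen

/-! CHUNK C: colimits of sequences of groups. -/

set_option autoImplicit false

namespace Pool.Agent.H63RA

section trans

variable (R : ℕ → Type) [∀ n, Group (R n)] (u : ∀ n, R n →* R (n + 1))

/-- transition maps -/
def tr (m n : ℕ) (h : m ≤ n) : R m →* R n :=
  Nat.leRec (motive := fun n _ => R m →* R n) (MonoidHom.id _) (fun n _ f => (u n).comp f) h

theorem tr_self (m : ℕ) : tr R u m m le_rfl = MonoidHom.id _ := by
  unfold tr; exact Nat.leRec_self _ _

theorem tr_succ (m n : ℕ) (h : m ≤ n) :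
    tr R u m (n + 1) (Nat.le_succ_of_le h) = (u n).comp (tr R u m n h) := by
  unfold tr; exact Nat.leRec_succ _ _ _

theorem tr_tr (m n k : ℕ) (h : m ≤ n) (h' : n ≤ k) (x : R m) :
    tr R u n k h' (tr R u m n h x) = tr R u m k (h.trans h') x := by
  induction k, h' using Nat.le_induction with
  | base => rw [tr_self]; rfl
  | succ k hk ih =>
    rw [tr_succ R u n k hk, tr_succ R u m k (h.trans hk)]
    simp only [MonoidHom.comp_apply]
    rw [ih]

theorem tr_inj (hu : ∀ n, Function.Injective (u n)) (m n : ℕ) (h : m ≤ n) :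
    Function.Injective (tr R u m n h) := by
  induction n, h using Nat.le_induction with
  | base => rw [tr_self]; exact fun _ _ h => h
  | succ k hk ih =>
    rw [tr_succ R u m k hk]
    exact (hu k).comp ih

instance trDir : DirectedSystem R (fun m n h => tr R u m n h) where
  map_self m x := by rw [tr_self]; rfl
  map_map _ _ _ h h' x := tr_tr R u _ _ _ h h' x

end trans

/-- The colimit of a sequence of groups and injective homomorphisms (use Mathlib's `DirectLimit`
with transition maps `Nat.leRec`, group structure `Mathlib/Algebra/Colimit/DirectLimit.lean`). -/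
theorem exists_natColim (R : ℕ → Type) [∀ n, Group (R n)] (u : ∀ n, R n →* R (n + 1))
    (hu : ∀ n, Function.Injective (u n)) :
    ∃ (N : Type) (_ : Group N) (v : ∀ n, R n →* N),
      (∀ n, Function.Injective (v n)) ∧ (∀ n x, v (n + 1) (u n x) = v n x) ∧
      (∀ m n, m ≤ n → (v m).range ≤ (v n).range) ∧
      (∀ z : N, ∃ n x, v n x = z) ∧
      (∀ (M : Type) (_ : Group M) (w : ∀ n, R n →* M), (∀ n x, w (n + 1) (u n x) = w n x) →
        ∃ W : N →* M, ∀ n x, W (v n x) = w n x) := by
  let f : ∀ m n (h : m ≤ n), R m →* R n := fun m n h => tr R u m n h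
  have : DirectedSystem R (f · · ·) := trDir R u
  let N : Type := DirectLimit R f
  let v : ∀ n, R n →* N := fun n =>
    { toFun := fun x => ⟦⟨n, x⟩⟧
      map_one' := (DirectLimit.one_def n).symm
      map_mul' := fun x y => (DirectLimit.mul_def n x y).symm }
  have hv : ∀ m n (h : m ≤ n) (x : R m), v n (tr R u m n h x) = v m x := fun m n h x =>
    DirectLimit.mk_apply m n x h
  refine ⟨N, inferInstance, v, ?_, ?_, ?_, ?_, ?_⟩
  · intro n
    exact DirectLimit.mk_injective f (fun i j hij => tr_inj R u hu i j hij) n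
  · intro n x
    have h := hv n (n + 1) (Nat.le_succ n) x
    have h2 : tr R u n (n + 1) (Nat.le_succ n) x = u n x := by
      have := tr_succ R u n n le_rfl
      rw [this, tr_self]; rfl
    rw [h2] at h
    exact h
  · rintro m n h _ ⟨x, rfl⟩
    exact ⟨tr R u m n h x, hv m n h x⟩
  · intro z
    obtain ⟨i, x, h⟩ := DirectLimit.exists_eq_mk f z
    exact ⟨i, x, h.symm⟩
  · intro M _ w hw
    have hw' : ∀ i j (h : i ≤ j) (x : R i), w i x = w j (f i j h x) := by
      intro i j h x
      induction j, h using Nat.le_induction with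
      | base => simp only [f, tr_self]; rfl
      | succ k hk ih =>
        simp only [f, tr_succ R u i k hk, MonoidHom.comp_apply]
        rw [hw]; exact ih
    refine ⟨
      { toFun := DirectLimit.lift f (fun i => w i) hw'
        map_one' := DirectLimit.lift_one w hw'
        map_mul' := fun x y => DirectLimit.lift_mul w hw' x y }, ?_⟩
    intro n x
    rfl

/-- The double colimit. `i`, `σ` are two commuting families of injections `Q n → Q (n+1)`.
Proof: `R k = Q (2k)`, `u k = σ ∘ i`, `N = colim R`; the maps `σ ∘ σ : Q (2k) → Q (2k+2)` induce an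
automorphism `τ` of `N` with inverse induced by `i ∘ i`; `Γ = N ⋊ ℤ`, `s` the generator of `ℤ`,
`v = v_0`, `w = v_1 ∘ σ 1`. -/
theorem exists_doubleColim (Q : ℕ → Type) [∀ n, Group (Q n)] (i σ : ∀ n, Q n →* Q (n + 1))
    (hi : ∀ n, Function.Injective (i n)) (hσ : ∀ n, Function.Injective (σ n))
    (hc : ∀ n q, σ (n + 1) (i n q) = i (n + 1) (σ n q)) (ham : ∀ n, Amen (Q n)) :
    ∃ (Γ : Type) (_ : Group Γ) (v : Q 0 →* Γ) (w : Q 1 →* Γ) (s : Γ), Amen Γ ∧
      Function.Injective v ∧ (∀ q, w (i 0 q) = v q) ∧ (∀ q, w (σ 0 q) = s * v q * s⁻¹) := by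
  let R : ℕ → Type := fun k => Q (2 * k)
  let u : ∀ k, R k →* R (k + 1) := fun k => (σ (2 * k + 1)).comp (i (2 * k))
  have hu : ∀ k, Function.Injective (u k) := fun k => (hσ (2 * k + 1)).comp (hi (2 * k))
  obtain ⟨N, gN, v, hvi, hvu, hvr, hvs, hvU⟩ := exists_natColim R u hu
  let ss : ∀ k, R k →* R (k + 1) := fun k => (σ (2 * k + 1)).comp (σ (2 * k))
  let ii : ∀ k, R k →* R (k + 1) := fun k => (i (2 * k + 1)).comp (i (2 * k))
  have hssu : ∀ k (x : R k), ss (k + 1) (u k x) = u (k + 1) (ss k x) := by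
    intro k x
    change σ (2 * k + 3) (σ (2 * k + 2) (σ (2 * k + 1) (i (2 * k) x))) =
      σ (2 * k + 3) (i (2 * k + 2) (σ (2 * k + 1) (σ (2 * k) x)))
    rw [hc (2 * k), hc (2 * k + 1)]
  have hiiu : ∀ k (x : R k), ii (k + 1) (u k x) = u (k + 1) (ii k x) := by
    intro k x
    change i (2 * k + 3) (i (2 * k + 2) (σ (2 * k + 1) (i (2 * k) x))) =
      σ (2 * k + 3) (i (2 * k + 2) (i (2 * k + 1) (i (2 * k) x)))
    rw [hc (2 * k + 2), hc (2 * k + 1)]
  have hsi : ∀ k (x : R k), ss (k + 1) (ii k x) = u (k + 1) (u k x) := by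
    intro k x
    change σ (2 * k + 3) (σ (2 * k + 2) (i (2 * k + 1) (i (2 * k) x))) =
      σ (2 * k + 3) (i (2 * k + 2) (σ (2 * k + 1) (i (2 * k) x)))
    rw [hc (2 * k + 1)]
  have his : ∀ k (x : R k), ii (k + 1) (ss k x) = u (k + 1) (u k x) := by
    intro k x
    change i (2 * k + 3) (i (2 * k + 2) (σ (2 * k + 1) (σ (2 * k) x))) =
      σ (2 * k + 3) (i (2 * k + 2) (σ (2 * k + 1) (i (2 * k) x)))
    rw [hc (2 * k + 2), hc (2 * k), hc (2 * k + 1)]
  obtain ⟨τ, hτ⟩ := hvU N gN (fun k => (v (k + 1)).comp (ss k)) (by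
    intro k x
    simp only [MonoidHom.comp_apply]
    rw [hssu, hvu])
  obtain ⟨ρ, hρ⟩ := hvU N gN (fun k => (v (k + 1)).comp (ii k)) (by
    intro k x
    simp only [MonoidHom.comp_apply]
    rw [hiiu, hvu])
  have hτρ : ∀ z, τ (ρ z) = z := by
    intro z
    obtain ⟨k, x, rfl⟩ := hvs z
    rw [hρ, MonoidHom.comp_apply, hτ, MonoidHom.comp_apply, hsi, hvu, hvu]
  have hρτ : ∀ z, ρ (τ z) = z := by
    intro z
    obtain ⟨k, x, rfl⟩ := hvs z
    rw [hτ, MonoidHom.comp_apply, hρ, MonoidHom.comp_apply, his, hvu, hvu]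
  let T : MulAut N :=
    { toFun := τ, invFun := ρ, left_inv := hρτ, right_inv := hτρ, map_mul' := map_mul τ }
  let φ : Multiplicative ℤ →* MulAut N := zpowersHom (MulAut N) T
  have hφ : φ (Multiplicative.ofAdd 1) = T := by simp [φ]
  have hN : Amen N := by
    apply Amen.of_local
    intro S
    have : ∃ n, ∀ s ∈ S, s ∈ (v n).range := by
      classical
      induction S using Finset.induction_on with
      | empty => exact ⟨0, by simp⟩
      | insert a S ha ih =>
        obtain ⟨n, hn⟩ := ih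
        obtain ⟨m, x, hx⟩ := hvs a
        refine ⟨max m n, ?_⟩
        intro s hs
        rcases Finset.mem_insert.mp hs with rfl | hs
        · exact hvr m _ (le_max_left _ _) ⟨x, hx⟩
        · exact hvr n _ (le_max_right _ _) (hn s hs)
    obtain ⟨n, hn⟩ := this
    refine ⟨(v n).range, hn, ?_⟩
    exact (ham (2 * n)).of_injective (MonoidHom.ofInjective (hvi n)).symm.toMonoidHom
      (MonoidHom.ofInjective (hvi n)).symm.injective
  refine ⟨N ⋊[φ] Multiplicative ℤ, inferInstance, SemidirectProduct.inl.comp (v 0),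
    SemidirectProduct.inl.comp ((v 1).comp (σ 1)), SemidirectProduct.inr (Multiplicative.ofAdd 1),
    Amen.semidirect φ hN Amen.of_comm, ?_, ?_, ?_⟩
  · exact SemidirectProduct.inl_injective.comp (hvi 0)
  · intro q
    simp only [MonoidHom.comp_apply]
    congr 1
    exact hvu 0 q
  · intro q
    simp only [MonoidHom.comp_apply]
    rw [← map_inv, ← SemidirectProduct.inl_aut, hφ]
    congr 1
    exact (hτ 0 q).symm

end Pool.Agent.H63RA
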