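import Pool.Agent.Lib.H63RA.Root
import Pool.Agent.Lib.H63RA.Ext

/-! CHUNK M: an amenable overgroup in which `x` and `y` are conjugate. -/

set_option autoImplicit false

namespace Pool.Agent.H63RA

/-- multiplication by a unit -/
def afAct : ℚˣ →* MulAut (Multiplicative ℚ) where
  toFun u :=
    { toFun := fun x => Multiplicative.ofAdd ((u : ℚ) * Multiplicative.toAdd x)
      invFun := fun x => Multiplicative.ofAdd (((u⁻¹ : ℚˣ) : ℚ) * Multiplicative.toAdd x)
      left_inv := fun x => by simp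
      right_inv := fun x => by simp
      map_mul' := fun x y => by simp [mul_add] }
  map_one' := by ext x; simp
  map_mul' u v := by ext x; simp [mul_assoc]

theorem afAct_apply (u : ℚˣ) (x : Multiplicative ℚ) :
    afAct u x = Multiplicative.ofAdd ((u : ℚ) * Multiplicative.toAdd x) := rfl

/-- `M = ℚ ⋊ ℤ` (or `ℚ ⋊ ℚˣ`): an amenable group with an element `u` conjugating
`a^p` to `a^q`, `a` of infinite order. -/
theorem exists_aff (p q : ℤ) (hp : p ≠ 0) (hq : q ≠ 0) :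
    ∃ (M : Type) (_ : Group M) (a : Multiplicative ℤ →* M) (u : M), Amen M ∧
      Function.Injective a ∧
      u * a (Multiplicative.ofAdd p) * u⁻¹ = a (Multiplicative.ofAdd q) := by
  have hp' : (p : ℚ) ≠ 0 := by exact_mod_cast hp
  have hq' : (q : ℚ) ≠ 0 := by exact_mod_cast hq
  let r : ℚˣ := Units.mk0 ((q : ℚ) / p) (div_ne_zero hq' hp')
  let a : Multiplicative ℤ →* Multiplicative ℚ ⋊[afAct] ℚˣ :=
    (SemidirectProduct.inl).comp (AddMonoidHom.toMultiplicative (Int.castAddHom ℚ))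
  have ha : ∀ m : ℤ, a (Multiplicative.ofAdd m) =
      SemidirectProduct.inl (Multiplicative.ofAdd (m : ℚ)) := fun m => rfl
  refine ⟨Multiplicative ℚ ⋊[afAct] ℚˣ, inferInstance, a, SemidirectProduct.inr r, ?_, ?_, ?_⟩
  · exact Amen.semidirect _ Amen.of_comm Amen.of_comm
  · intro m n hmn
    have h1 : SemidirectProduct.inl (φ := afAct)
        (Multiplicative.ofAdd ((Multiplicative.toAdd m : ℤ) : ℚ)) =
        SemidirectProduct.inl (Multiplicative.ofAdd ((Multiplicative.toAdd n : ℤ) : ℚ)) := hmn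
    have h2 := SemidirectProduct.inl_injective h1
    have h3 : ((Multiplicative.toAdd m : ℤ) : ℚ) = ((Multiplicative.toAdd n : ℤ) : ℚ) :=
      Multiplicative.ofAdd.injective h2
    have h4 : Multiplicative.toAdd m = Multiplicative.toAdd n := by exact_mod_cast h3
    exact Multiplicative.toAdd.injective h4
  · rw [ha, ha, ← map_inv, ← SemidirectProduct.inl_aut, afAct_apply]
    congr 2
    simp only [r, Units.val_mk0, toAdd_ofAdd]
    field_simp

theorem gz {G : Type} [Group G] (d : G →* Multiplicative ℤ) (w : G) {k : ℤ}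
    (hw : d w = Multiplicative.ofAdd k) (m : ℤ) : d (w ^ m) = Multiplicative.ofAdd (m * k) := by
  rw [map_zpow, hw, ← ofAdd_zsmul, smul_eq_mul]

/-- `g ↦ w ^ (d g)` -/
def zp {G K : Type} [Group G] [Group K] (d : G →* Multiplicative ℤ) (w : K) : G →* K :=
  (zpowersHom K w).comp d

theorem zp_apply {G K : Type} [Group G] [Group K] (d : G →* Multiplicative ℤ) (w : K) (g : G) :
    zp d w g = w ^ (Multiplicative.toAdd (d g)) := rfl

theorem zp_zp {G K : Type} [Group G] [Group K] (d : G →* Multiplicative ℤ) (w : G) (v : K)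
    (hw : d w = Multiplicative.ofAdd 1) (g : G) : zp d v (zp d w g) = zp d v g := by
  rw [zp_apply, zp_apply, zp_apply, gz d w hw, toAdd_ofAdd, mul_one]

theorem not_fin_zpow {G : Type} [Group G] {v : G} (hv : ¬ IsOfFinOrder v) {m : ℤ}
    (h : v ^ m = 1) : m = 0 := by
  by_contra hm
  exact hv (isOfFinOrder_iff_zpow_eq_one.2 ⟨m, hm, h⟩)

theorem zp_ker {G K : Type} [Group G] [Group K] (d : G →* Multiplicative ℤ) (w : G) (v : K)
    (hv : ¬ IsOfFinOrder v) (g : G) (h : zp d v g = 1) : zp d w g = 1 := by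
  rw [zp_apply] at h ⊢
  rw [not_fin_zpow hv h, zpow_zero]

theorem conj_core {Λ : Type} [Group Λ] (hΛ : Amen Λ) (d : Λ →* Multiplicative ℤ) (x y : Λ)
    (hx : ¬ IsOfFinOrder x) (p : ℤ) (q : ℕ) (hq : 0 < q)
    (hdx : d x = Multiplicative.ofAdd p) (hdy : d y = Multiplicative.ofAdd (q : ℤ)) :
    ∃ (Γ : Type) (_ : Group Γ) (ι : Λ →* Γ) (t : Γ), Amen Γ ∧ Function.Injective ι ∧
      t * ι x * t⁻¹ = ι y := by
  rcases eq_or_ne p 0 with hp | hp
  · subst hp
    obtain ⟨Λ1, _, ι1, d1, v, hΛ1, hι1, hd1, hv, hdv⟩ := exists_root hΛ d x q hq 0 (by simpa using hdx)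
    obtain ⟨Λ2, _, ι2, d2, w, hΛ2, hι2, hd2, hw, hdw⟩ := exists_root hΛ1 d1 (ι1 y) q hq 1
      (by rw [hd1, hdy, mul_one])
    have hv2 : (ι2 v) ^ q = ι2 (ι1 x) := by rw [← map_pow, hv]
    have hvinf : ¬ IsOfFinOrder (ι2 v) := by
      intro h
      have h1 := h.pow (n := q)
      rw [hv2] at h1
      exact hx (((hι2.comp hι1).isOfFinOrder_iff (f := ι2.comp ι1)).1 h1)
    obtain ⟨Γ, _, ι3, s, hΓ, hι3, hs⟩ := telescoping hΛ2 (zp d2 w) (zp d2 (ι2 v))
      (zp_zp d2 w w hdw) (zp_zp d2 w (ι2 v) hdw) (zp_ker d2 w (ι2 v) hvinf)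
    have h1 : s * ι3 w * s⁻¹ = ι3 (ι2 v) := by
      have := hs w
      rwa [zp_apply, zp_apply, hdw, toAdd_ofAdd, zpow_one, zpow_one] at this
    refine ⟨Γ, inferInstance, ι3.comp (ι2.comp ι1), s⁻¹, hΓ, hι3.comp (hι2.comp hι1), ?_⟩
    have h2 : s * ι3 (w ^ q) * s⁻¹ = ι3 ((ι2 v) ^ q) := by
      rw [map_pow, map_pow, ← h1, conj_pow]
    rw [hw, hv2] at h2
    show s⁻¹ * ι3 (ι2 (ι1 x)) * s⁻¹⁻¹ = ι3 (ι2 (ι1 y))
    rw [← h2]
    group
  · have hn : 0 < p.natAbs := Int.natAbs_pos.2 hp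
    have hsign : (p.natAbs : ℤ) * p.sign = p := by
      rw [mul_comm]; exact Int.sign_mul_natAbs p
    obtain ⟨Λ1, _, ι1, d1, z0, hΛ1, hι1, hd1, hz0, hdz0⟩ :=
      exists_root hΛ d x p.natAbs hn p.sign (by rw [hsign, hdx])
    obtain ⟨Λ2, _, ι2, d2, w, hΛ2, hι2, hd2, hw, hdw⟩ := exists_root hΛ1 d1 (ι1 y) q hq 1
      (by rw [hd1, hdy, mul_one])
    have hss : p.sign * p.sign = 1 := by
      rcases lt_or_gt_of_ne hp with h | h
      · rw [Int.sign_eq_neg_one_of_neg h]; norm_num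
      · rw [Int.sign_eq_one_of_pos h]; norm_num
    set z : Λ2 := (ι2 z0) ^ p.sign with hz
    have hdz : d2 z = Multiplicative.ofAdd 1 := by
      rw [hz, gz d2 (ι2 z0) (by rw [hd2, hdz0]), hss]
    have hzp : z ^ p = ι2 (ι1 x) := by
      rw [hz, ← zpow_mul, ← map_zpow]
      have : p.sign * p = (p.natAbs : ℤ) := by
        conv_lhs => rw [← hsign]
        rw [hsign, mul_comm]
        nth_rewrite 1 [← hsign]
        rw [mul_assoc, hss, mul_one]
      rw [this, zpow_natCast, hz0]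
    have hzinf : ¬ IsOfFinOrder z := by
      intro h
      obtain ⟨m, hm, h1⟩ := isOfFinOrder_iff_zpow_eq_one.1 h
      have h2 := gz d2 z hdz m
      rw [h1, map_one, mul_one] at h2
      exact hm (by simpa using (congrArg Multiplicative.toAdd h2).symm)
    obtain ⟨Γ', _, ι3, s, hΓ', hι3, hs⟩ := telescoping hΛ2 (zp d2 w) (zp d2 z)
      (zp_zp d2 w w hdw) (zp_zp d2 w z hdw) (zp_ker d2 w z hzinf)
    have h1 : s * ι3 w * s⁻¹ = ι3 z := by
      have := hs w
      rwa [zp_apply, zp_apply, hdw, toAdd_ofAdd, zpow_one, zpow_one] at this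
    have hqz : (q : ℤ) ≠ 0 := by exact_mod_cast hq.ne'
    obtain ⟨M, _, a, u, hM, ha, hu⟩ := exists_aff p q hp hqz
    let ι' : Λ2 →* Γ' × Multiplicative ℤ := ι3.prod d2
    let s' : Γ' × Multiplicative ℤ := (s, 1)
    have hZ2 : (MonoidHom.snd Γ' (Multiplicative ℤ)) (ι' z) = Multiplicative.ofAdd 1 := hdz
    have hγr : ∀ g, (a.comp (MonoidHom.snd Γ' (Multiplicative ℤ)))
        (zp (MonoidHom.snd Γ' (Multiplicative ℤ)) (ι' z) g) =
        (a.comp (MonoidHom.snd Γ' (Multiplicative ℤ))) g := by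
      intro g
      rw [MonoidHom.comp_apply, MonoidHom.comp_apply, zp_apply, gz _ _ hZ2, mul_one]
      rfl
    obtain ⟨E, _, j, k, hE, hj, hk, hjk⟩ := exists_amalgam (hΓ'.prod Amen.of_comm) hM
      (zp (MonoidHom.snd Γ' (Multiplicative ℤ)) (ι' z))
      (a.comp (MonoidHom.snd Γ' (Multiplicative ℤ)))
      (zp_zp _ _ _ hZ2) hγr
      (fun g hg => by
        have h2 : MonoidHom.snd Γ' (Multiplicative ℤ) g = 1 := ha (by rw [map_one]; exact hg)
        rw [zp_apply, h2, toAdd_one, zpow_zero])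
    have hjZ : ∀ m : ℤ, j ((ι' z) ^ m) = k (a (Multiplicative.ofAdd m)) := by
      intro m
      have h2 := hjk ((ι' z) ^ m)
      rw [zp_apply, gz _ _ hZ2, toAdd_ofAdd, mul_one, MonoidHom.comp_apply, gz _ _ hZ2,
        mul_one] at h2
      exact h2
    have hs' : s' * ι' w * s'⁻¹ = ι' z := by
      apply Prod.ext
      · exact h1
      · show 1 * d2 w * 1⁻¹ = d2 z
        rw [hdw, hdz]
        simp
    refine ⟨E, inferInstance, j.comp (ι'.comp (ι2.comp ι1)), (j s')⁻¹ * k u, hE, ?_, ?_⟩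
    · have hι' : Function.Injective ι' := fun g h hgh => hι3 (congrArg Prod.fst hgh)
      exact hj.comp (hι'.comp (hι2.comp hι1))
    · show (j s')⁻¹ * k u * j (ι' (ι2 (ι1 x))) * ((j s')⁻¹ * k u)⁻¹ = j (ι' (ι2 (ι1 y)))
      have h2 : j (ι' (ι2 (ι1 x))) = k (a (Multiplicative.ofAdd p)) := by
        rw [← hzp, map_zpow ι', hjZ]
      have h3 : j (ι' (ι2 (ι1 y))) = (j s')⁻¹ * k (a (Multiplicative.ofAdd (q : ℤ))) * j s' := by
        rw [← hw, map_pow ι', ← hjZ, zpow_natCast, ← hs', conj_pow]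
        simp only [map_mul, map_inv]
        group
      rw [h2, h3, ← hu]
      simp only [map_mul, map_inv, mul_inv_rev, inv_inv]
      group

/-- Main embedding lemma. By symmetry (and sign) `d y = q ≥ 1`, `d x = p`.
* case `p = 0`: `exists_root` twice: `v ^ q = x`, `d v = 0`; `w ^ q = y`, `d w = 1`.
  `telescoping` with `r g = w ^ (d g)`, `ε g = v ^ (d g)` gives `s ι(w) s⁻¹ = ι(v)`, so
  `s⁻¹ ι(x) s = ι(y)`.
* case `p ≠ 0`: roots `z ^ p = x`, `d z = 1` (take a `|p|`-th root and its inverse if `p < 0`) and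
  `w ^ q = y`, `d w = 1`; `telescoping` with `r g = w ^ (d g)`, `ε g = z ^ (d g)` gives `Γ'` with
  `s ι(w) s⁻¹ = ι(z)`; put `Γ'' = Γ' × ℤ`, `ι' g = (ι g, d g)`, `s' = (s, 0)`, `Z = ι' z`;
  `exists_amalgam` for `Γ''`, `r g = Z ^ (snd g)`, `γ g = a (snd g) ∈ M` (`M` from `exists_aff p q`)
  gives `j, k` with `j Z = k (a 1)`; `t = j(s')⁻¹ k(u)` works: `t j(ι' x) t⁻¹ = j(ι' y)`. -/
theorem exists_conj {Λ : Type} [Group Λ] (hΛ : Amen Λ) (d : Λ →* Multiplicative ℤ) (x y : Λ)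
    (hx : ¬ IsOfFinOrder x) (hy : ¬ IsOfFinOrder y) (hd : d x ≠ 1 ∨ d y ≠ 1) :
    ∃ (Γ : Type) (_ : Group Γ) (ι : Λ →* Γ) (t : Γ), Amen Γ ∧ Function.Injective ι ∧
      t * ι x * t⁻¹ = ι y := by
  -- case `d y ≠ 1`
  have key : ∀ x y : Λ, ¬ IsOfFinOrder x → d y ≠ 1 →
      ∃ (Γ : Type) (_ : Group Γ) (ι : Λ →* Γ) (t : Γ), Amen Γ ∧ Function.Injective ι ∧
        t * ι x * t⁻¹ = ι y := by
    intro x y hx hdy
    have hq : Multiplicative.toAdd (d y) ≠ 0 := by
      intro h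
      exact hdy (Multiplicative.toAdd.injective (by simpa using h))
    rcases lt_or_gt_of_ne hq with h | h
    · refine conj_core hΛ d⁻¹ x y hx (- Multiplicative.toAdd (d x))
        (Multiplicative.toAdd (d y)).natAbs (Int.natAbs_pos.2 hq) ?_ ?_
      · rw [MonoidHom.inv_apply, ofAdd_neg, ofAdd_toAdd]
      · rw [MonoidHom.inv_apply, ← Int.abs_eq_natAbs, abs_of_neg h, ofAdd_neg, ofAdd_toAdd]
    · refine conj_core hΛ d x y hx (Multiplicative.toAdd (d x))
        (Multiplicative.toAdd (d y)).natAbs (Int.natAbs_pos.2 hq) ?_ ?_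
      · rw [ofAdd_toAdd]
      · rw [← Int.abs_eq_natAbs, abs_of_pos h, ofAdd_toAdd]
  rcases hd with h | h
  · obtain ⟨Γ, _, ι, t, h1, h2, h3⟩ := key y x hy h
    refine ⟨Γ, inferInstance, ι, t⁻¹, h1, h2, ?_⟩
    rw [← h3]
    group
  · exact key x y hx h

end Pool.Agent.H63RA
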