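import Pool.Agent.Lib.H63RA.Pres

/-! CHUNK F: the family of two-generator one-relator groups. -/

set_option autoImplicit false

namespace Pool.Agent.H63RA

open FreeGroup

/-- The Baumslag–Solitar word `x₁ x₀^m x₁⁻¹ x₀^{-n}`. -/
def bsWord (m n : ℤ) : FreeGroup (Fin 2) := of 1 * of 0 ^ m * (of 1)⁻¹ * (of 0 ^ n)⁻¹

/-- Relators obtained from the Baumslag–Solitar words by automorphisms of the free group of rank
two and the substitutions `x₁ ↦ x₁ x₀^l x₁⁻¹` and `x₁ ↦ x₁^l` (`l ≠ 0`). -/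
inductive Fam : FreeGroup (Fin 2) → Prop
  | bs (m n : ℤ) (hm : m ≠ 0) (hn : n ≠ 0) : Fam (bsWord m n)
  | aut (θ : FreeGroup (Fin 2) ≃* FreeGroup (Fin 2)) (w : FreeGroup (Fin 2)) (hw : Fam w) :
      Fam (θ w)
  | conj (l : ℤ) (hl : l ≠ 0) (w : FreeGroup (Fin 2)) (hw : Fam w) : Fam (subst 1 (of 0 ^ l) w)
  | pow (l : ℤ) (hl : l ≠ 0) (w : FreeGroup (Fin 2)) (hw : Fam w) : Fam (powSubst 1 l w)

/-! ### Helpers -/

theorem of_eq_mk {rels : Set (FreeGroup (Fin 2))} (i : Fin 2) :
    (PresentedGroup.of i : PresentedGroup rels) = PresentedGroup.mk rels (of i) := rfl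

theorem mk_rel (w : FreeGroup (Fin 2)) :
    PresentedGroup.mk ({w} : Set (FreeGroup (Fin 2))) w = 1 :=
  (QuotientGroup.eq_one_iff w).2 (Subgroup.subset_normalClosure (Set.mem_singleton w))

theorem zpow_ne_one_mult {x : Multiplicative ℤ} (hx : x ≠ 1) {l : ℤ} (hl : l ≠ 0) : x ^ l ≠ 1 := by
  intro h
  have h1 : l • Multiplicative.toAdd x = 0 := by
    have := congrArg Multiplicative.toAdd h
    simpa using this
  rcases smul_eq_zero.1 h1 with h2 | h2
  · exact hl h2
  · exact hx (by rw [← ofAdd_toAdd x, h2]; rfl)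

theorem not_fin_mult {x : Multiplicative ℤ} (hx : x ≠ 1) : ¬ IsOfFinOrder x := by
  rw [isOfFinOrder_iff_pow_eq_one]
  rintro ⟨n, hn, h⟩
  exact zpow_ne_one_mult hx (show (n : ℤ) ≠ 0 by exact_mod_cast hn.ne') (by rw [zpow_natCast]; exact h)

theorem sra_int : SRA (Multiplicative ℤ) := fun g hg =>
  ⟨Multiplicative ℤ, inferInstance, MonoidHom.id _, Amen.of_comm, not_fin_mult hg⟩

theorem zpow_ne_one {G : Type} [Group G] (hG : SRA G) {x : G} (hx : x ≠ 1) {l : ℤ} (hl : l ≠ 0) :
    x ^ l ≠ 1 := by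
  intro h
  apply hG.not_isOfFinOrder hx
  exact (isOfFinOrder_iff_zpow_eq_one).2 ⟨l, hl, h⟩

theorem isCyclic_of_inj {G H : Type} [Group G] [Group H] (f : G →* H) (hf : Function.Injective f)
    (hH : IsCyclic H) : IsCyclic G := by
  have h1 : IsCyclic f.range := inferInstance
  exact (MonoidHom.ofInjective hf).isCyclic.2 h1

/-! ### Baumslag–Solitar groups -/

/-- the homomorphism `x₀ ↦ 1`, `x₁ ↦ n` -/
theorem exists_toInt (n : ℤ) : ∃ F : PresentedGroup ({of 1 * (of 0 ^ n)⁻¹} : Set (FreeGroup (Fin 2))) →*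
    Multiplicative ℤ, Function.Injective F ∧ F (PresentedGroup.of 0) = Multiplicative.ofAdd 1 ∧
      F (PresentedGroup.of 1) = Multiplicative.ofAdd n := by
  let R : Set (FreeGroup (Fin 2)) := {of 1 * (of 0 ^ n)⁻¹}
  let f : Fin 2 → Multiplicative ℤ := ![Multiplicative.ofAdd 1, Multiplicative.ofAdd n]
  have hf : ∀ r ∈ R, FreeGroup.lift f r = 1 := by
    intro r hr
    rw [Set.mem_singleton_iff.1 hr]
    simp only [_root_.map_mul, _root_.map_inv, _root_.map_zpow, FreeGroup.lift_apply_of]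
    show Multiplicative.ofAdd n * (Multiplicative.ofAdd 1 ^ n)⁻¹ = 1
    rw [← ofAdd_zsmul]
    simp
  let F : PresentedGroup R →* Multiplicative ℤ := PresentedGroup.toGroup hf
  let E : Multiplicative ℤ →* PresentedGroup R := zpowersHom _ (PresentedGroup.of 0)
  have h0 : F (PresentedGroup.of 0) = Multiplicative.ofAdd 1 := PresentedGroup.toGroup.of hf
  have h1 : F (PresentedGroup.of 1) = Multiplicative.ofAdd n := PresentedGroup.toGroup.of hf
  have hr : (PresentedGroup.of 1 : PresentedGroup R) = PresentedGroup.of 0 ^ n := by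
    have := mk_rel (of 1 * (of 0 ^ n)⁻¹)
    rw [_root_.map_mul, _root_.map_inv, _root_.map_zpow] at this
    exact mul_inv_eq_one.1 this
  have hEF : E.comp F = MonoidHom.id _ := by
    apply PresentedGroup.ext
    intro i
    fin_cases i
    · show E (F (PresentedGroup.of 0)) = PresentedGroup.of 0
      rw [h0]; simp [E, zpowersHom_apply]
    · show E (F (PresentedGroup.of 1)) = PresentedGroup.of 1
      rw [h1, hr]; simp [E, zpowersHom_apply]
  refine ⟨F, fun a b hab => ?_, h0, h1⟩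
  have := congrArg E hab
  have ha : E (F a) = a := DFunLike.congr_fun hEF a
  have hb : E (F b) = b := DFunLike.congr_fun hEF b
  rw [← ha, ← hb, this]

/-- A cyclic group is commutative. -/
theorem comm_of_cyclic {G : Type} [Group G] (h : IsCyclic G) (x y : G) : x * y = y * x := by
  obtain ⟨g, hg⟩ := h.exists_generator
  obtain ⟨a, rfl⟩ := Subgroup.mem_zpowers_iff.1 (hg x)
  obtain ⟨b, rfl⟩ := Subgroup.mem_zpowers_iff.1 (hg y)
  rw [← zpow_add, ← zpow_add, add_comm]

theorem bs_not_cyclic (m n : ℤ) (hm : m ≠ 0) (hn : n ≠ 0) :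
    ¬ IsCyclic (PresentedGroup ({bsWord m n} : Set (FreeGroup (Fin 2)))) := by
  intro hcyc
  have hm' : (m : ℚ) ≠ 0 := by exact_mod_cast hm
  have hn' : (n : ℚ) ≠ 0 := by exact_mod_cast hn
  -- the affine representation
  have hmn : m = n := by
    let q : ℚ := n / m
    have hq : q ≠ 0 := div_ne_zero hn' hm'
    let f : Fin 2 → Equiv.Perm ℚ := ![Equiv.addRight (1 : ℚ), Equiv.mulLeft₀ q hq]
    have hpow : ∀ (k : ℤ) (x : ℚ), ((Equiv.addRight (1 : ℚ)) ^ k : Equiv.Perm ℚ) x = x + k := by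
      intro k x
      have hz : ∀ (n : ℕ) (y : ℚ), ((Equiv.addRight (1 : ℚ)) ^ n : Equiv.Perm ℚ) y = y + n := by
        intro n
        induction n with
        | zero => intro y; simp
        | succ n ih =>
          intro y
          rw [pow_succ, Equiv.Perm.mul_apply, ih]
          show y + 1 + n = y + (n + 1 : ℕ)
          push_cast; ring
      cases k with
      | ofNat n => simpa using hz n x
      | negSucc n =>
        rw [zpow_negSucc]
        apply Equiv.injective ((Equiv.addRight (1 : ℚ)) ^ (n + 1) : Equiv.Perm ℚ)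
        rw [← Equiv.Perm.mul_apply, mul_inv_cancel, hz, Int.cast_negSucc, Equiv.Perm.one_apply]
        push_cast; ring
    have hf : ∀ r ∈ ({bsWord m n} : Set (FreeGroup (Fin 2))), FreeGroup.lift f r = 1 := by
      intro r hr
      rw [Set.mem_singleton_iff.1 hr, bsWord]
      simp only [_root_.map_mul, _root_.map_inv, _root_.map_zpow, FreeGroup.lift_apply_of]
      show Equiv.mulLeft₀ q hq * Equiv.addRight (1 : ℚ) ^ m * (Equiv.mulLeft₀ q hq)⁻¹ *
        (Equiv.addRight (1 : ℚ) ^ n)⁻¹ = 1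
      rw [mul_inv_eq_one, mul_inv_eq_iff_eq_mul]
      ext x
      rw [Equiv.Perm.mul_apply, Equiv.Perm.mul_apply, hpow, hpow]
      show q * (x + m) = q * x + n
      simp only [q]
      field_simp
    let F : PresentedGroup ({bsWord m n} : Set (FreeGroup (Fin 2))) →* Equiv.Perm ℚ :=
      PresentedGroup.toGroup hf
    have h0 : F (PresentedGroup.of 0) = Equiv.addRight (1 : ℚ) := PresentedGroup.toGroup.of hf
    have h1 : F (PresentedGroup.of 1) = Equiv.mulLeft₀ q hq := PresentedGroup.toGroup.of hf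
    have hc := congrArg F (comm_of_cyclic hcyc (PresentedGroup.of 0) (PresentedGroup.of 1))
    rw [_root_.map_mul, _root_.map_mul, h0, h1] at hc
    have hc0 := congrArg (fun e : Equiv.Perm ℚ => e 0) hc
    have hc1 : q * 0 + 1 = q * (0 + 1) := hc0
    have hq1 : q = 1 := by linarith
    have : (n : ℚ) = m := by
      have : (n : ℚ) / m = 1 := hq1
      rwa [div_eq_one_iff_eq hm'] at this
    exact_mod_cast this.symm
  subst hmn
  -- the abelian representation
  let f : Fin 2 → Multiplicative (ℤ × ℤ) := ![Multiplicative.ofAdd (1, 0), Multiplicative.ofAdd (0, 1)]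
  have hf : ∀ r ∈ ({bsWord m m} : Set (FreeGroup (Fin 2))), FreeGroup.lift f r = 1 := by
    intro r hr
    rw [Set.mem_singleton_iff.1 hr, bsWord]
    simp only [_root_.map_mul, _root_.map_inv, _root_.map_zpow, FreeGroup.lift_apply_of]
    rw [mul_inv_eq_one, mul_inv_eq_iff_eq_mul, mul_comm]
  let F : PresentedGroup ({bsWord m m} : Set (FreeGroup (Fin 2))) →* Multiplicative (ℤ × ℤ) :=
    PresentedGroup.toGroup hf
  have h0 : F (PresentedGroup.of 0) = Multiplicative.ofAdd ((1 : ℤ), (0 : ℤ)) :=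
    PresentedGroup.toGroup.of hf
  have h1 : F (PresentedGroup.of 1) = Multiplicative.ofAdd ((0 : ℤ), (1 : ℤ)) :=
    PresentedGroup.toGroup.of hf
  obtain ⟨g, hg⟩ := hcyc.exists_generator
  obtain ⟨a, ha⟩ := Subgroup.mem_zpowers_iff.1 (hg (PresentedGroup.of 0))
  obtain ⟨b, hb⟩ := Subgroup.mem_zpowers_iff.1 (hg (PresentedGroup.of 1))
  have ha' := congrArg F ha
  have hb' := congrArg F hb
  rw [_root_.map_zpow, h0] at ha'
  rw [_root_.map_zpow, h1] at hb'
  have ea := congrArg Multiplicative.toAdd ha'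
  have eb := congrArg Multiplicative.toAdd hb'
  rw [toAdd_zpow, toAdd_ofAdd] at ea eb
  have ea1 := congrArg Prod.fst ea
  have ea2 := congrArg Prod.snd ea
  have eb1 := congrArg Prod.fst eb
  have eb2 := congrArg Prod.snd eb
  simp only [Prod.smul_fst, Prod.smul_snd, smul_eq_mul] at ea1 ea2 eb1 eb2
  rcases mul_eq_zero.1 ea2 with h | h
  · rw [h] at ea1; simp at ea1
  · rw [h] at eb2; simp at eb2

/-- `⟨x₀, x₁ | x₁ x₀^{-n}⟩ ≅ ℤ` and `bsWord m n = subst 1 (x₀^m) (x₁ x₀^{-n})`. -/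
theorem sra_bs (m n : ℤ) (hm : m ≠ 0) (hn : n ≠ 0) :
    SRA (PresentedGroup ({bsWord m n} : Set (FreeGroup (Fin 2)))) ∧
    ¬ IsCyclic (PresentedGroup ({bsWord m n} : Set (FreeGroup (Fin 2)))) := by
  refine ⟨?_, bs_not_cyclic m n hm hn⟩
  obtain ⟨F, hF, h0, h1⟩ := exists_toInt n
  have e : bsWord m n = subst 1 (of 0 ^ m) (of 1 * (of 0 ^ n)⁻¹) := by
    simp [bsWord, subst, _root_.map_zpow]
  have hn1 : Multiplicative.ofAdd n ≠ 1 := by
    intro h; exact hn (by simpa using h)
  have h11 : Multiplicative.ofAdd (1 : ℤ) ≠ 1 := by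
    intro h; exact one_ne_zero (α := ℤ) (by simpa using h)
  rw [e]
  refine (sra_subst 1 (of 1 * (of 0 ^ n)⁻¹) (of 0 ^ m) ?_ (SRA.of_injective sra_int F hF) ?_ ?_ F
    (Or.inl ?_)).1
  · exact Subgroup.zpow_mem _ (Subgroup.subset_closure (Set.mem_image_of_mem _ (show (0 : Fin 2) ∈ {i : Fin 2 | i ≠ 1} by simp))) _
  · intro h
    rw [h, _root_.map_one] at h1
    exact hn1 h1.symm
  · intro h
    have h2 := congrArg F h
    rw [_root_.map_zpow, _root_.map_zpow, _root_.map_one] at h2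
    change (F (PresentedGroup.of 0)) ^ m = 1 at h2
    rw [h0] at h2
    exact zpow_ne_one_mult h11 hm h2
  · rw [h1]; exact hn1

/-- A two-generator one-relator group has a homomorphism to `ℤ` which does not kill both
generators. -/
theorem exists_deg (w : FreeGroup (Fin 2)) :
    ∃ d : PresentedGroup ({w} : Set (FreeGroup (Fin 2))) →* Multiplicative ℤ,
      d (PresentedGroup.of 1) ≠ 1 ∨ d (PresentedGroup.of 0) ≠ 1 := by
  let ε : Fin 2 → FreeGroup (Fin 2) →* Multiplicative ℤ := fun i =>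
    FreeGroup.lift (fun j => if j = i then Multiplicative.ofAdd 1 else 1)
  have key : ∀ (f : Fin 2 → Multiplicative ℤ), FreeGroup.lift f w =
      (ε 0 w) ^ (Multiplicative.toAdd (f 0)) * (ε 1 w) ^ (Multiplicative.toAdd (f 1)) := by
    intro f
    let D : FreeGroup (Fin 2) →* Multiplicative ℤ :=
      ((zpowGroupHom (Multiplicative.toAdd (f 0))).comp (ε 0)) *
        ((zpowGroupHom (Multiplicative.toAdd (f 1))).comp (ε 1))
    have hD : FreeGroup.lift f = D := by
      apply FreeGroup.ext_hom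
      intro i
      fin_cases i
      · simp only [D, ε, MonoidHom.mul_apply, MonoidHom.comp_apply, FreeGroup.lift_apply_of]
        apply Multiplicative.toAdd.injective
        simp
      · simp only [D, ε, MonoidHom.mul_apply, MonoidHom.comp_apply, FreeGroup.lift_apply_of]
        apply Multiplicative.toAdd.injective
        simp
    rw [hD]; rfl
  let a : ℤ := Multiplicative.toAdd (ε 0 w)
  let b : ℤ := Multiplicative.toAdd (ε 1 w)
  have mk' : ∀ p q : ℤ, p * a + q * b = 0 →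
      ∃ d : PresentedGroup ({w} : Set (FreeGroup (Fin 2))) →* Multiplicative ℤ,
        d (PresentedGroup.of 0) = Multiplicative.ofAdd p ∧
        d (PresentedGroup.of 1) = Multiplicative.ofAdd q := by
    intro p q hpq
    have hf : ∀ r ∈ ({w} : Set (FreeGroup (Fin 2))),
        FreeGroup.lift ![Multiplicative.ofAdd p, Multiplicative.ofAdd q] r = 1 := by
      intro r hr
      rw [Set.mem_singleton_iff.1 hr, key]
      apply Multiplicative.toAdd.injective
      simpa [a, b] using hpq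
    exact ⟨PresentedGroup.toGroup hf, PresentedGroup.toGroup.of hf, PresentedGroup.toGroup.of hf⟩
  by_cases hab : a = 0 ∧ b = 0
  · obtain ⟨d, h0, _⟩ := mk' 1 0 (by rw [hab.1, hab.2]; ring)
    refine ⟨d, Or.inr ?_⟩
    rw [h0]
    intro h; exact one_ne_zero (α := ℤ) (by simpa using h)
  · obtain ⟨d, h0, h1⟩ := mk' b (-a) (by ring)
    refine ⟨d, ?_⟩
    by_contra hcon
    rw [not_or, not_not, not_not, h0, h1] at hcon
    apply hab
    constructor
    · simpa using hcon.1
    · simpa using hcon.2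

theorem of_ne_one_of_not_isCyclic (w : FreeGroup (Fin 2))
    (hw : ¬ IsCyclic (PresentedGroup ({w} : Set (FreeGroup (Fin 2))))) (i : Fin 2) :
    (PresentedGroup.of i : PresentedGroup ({w} : Set (FreeGroup (Fin 2)))) ≠ 1 := by
  intro h
  apply hw
  refine ⟨PresentedGroup.of (1 - i), fun x => ?_⟩
  have hle : Subgroup.closure (Set.range (PresentedGroup.of :
      Fin 2 → PresentedGroup ({w} : Set (FreeGroup (Fin 2))))) ≤
      Subgroup.zpowers (PresentedGroup.of (1 - i)) := by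
    rw [Subgroup.closure_le]
    rintro _ ⟨j, rfl⟩
    by_cases hj : j = i
    · rw [hj, h]; exact Subgroup.one_mem _
    · have : j = 1 - i := by
        fin_cases i <;> fin_cases j <;> simp at hj ⊢
      rw [this]; exact Subgroup.mem_zpowers _
  apply hle
  rw [PresentedGroup.closure_range_of]
  exact Subgroup.mem_top _

theorem closed_aut (θ : FreeGroup (Fin 2) ≃* FreeGroup (Fin 2)) (w : FreeGroup (Fin 2))
    (hw : SRA (PresentedGroup ({w} : Set (FreeGroup (Fin 2)))) ∧
      ¬ IsCyclic (PresentedGroup ({w} : Set (FreeGroup (Fin 2))))) :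
    SRA (PresentedGroup ({θ w} : Set (FreeGroup (Fin 2)))) ∧
      ¬ IsCyclic (PresentedGroup ({θ w} : Set (FreeGroup (Fin 2)))) := by
  have he : (Subgroup.normalClosure ({w} : Set (FreeGroup (Fin 2)))).map (θ : FreeGroup (Fin 2) →* _) =
      Subgroup.normalClosure ({θ w} : Set (FreeGroup (Fin 2))) := by
    rw [Subgroup.map_normalClosure _ _ θ.surjective]
    simp
  let e : PresentedGroup ({w} : Set (FreeGroup (Fin 2))) ≃*
      PresentedGroup ({θ w} : Set (FreeGroup (Fin 2))) := QuotientGroup.congr _ _ θ he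
  refine ⟨SRA.of_injective hw.1 e.symm.toMonoidHom e.symm.injective, fun h => hw.2 ?_⟩
  exact e.isCyclic.2 h

theorem closed_conj (l : ℤ) (hl : l ≠ 0) (w : FreeGroup (Fin 2))
    (hw : SRA (PresentedGroup ({w} : Set (FreeGroup (Fin 2)))) ∧
      ¬ IsCyclic (PresentedGroup ({w} : Set (FreeGroup (Fin 2))))) :
    SRA (PresentedGroup ({subst 1 (of 0 ^ l) w} : Set (FreeGroup (Fin 2)))) ∧
      ¬ IsCyclic (PresentedGroup ({subst 1 (of 0 ^ l) w} : Set (FreeGroup (Fin 2)))) := by
  obtain ⟨d, hd⟩ := exists_deg w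
  have h0 := of_ne_one_of_not_isCyclic w hw.2 0
  have h1 := of_ne_one_of_not_isCyclic w hw.2 1
  have hmk : PresentedGroup.mk ({w} : Set (FreeGroup (Fin 2))) (of 0 ^ l) =
      (PresentedGroup.of 0) ^ l := _root_.map_zpow _ _ _
  obtain ⟨h2, e, he⟩ := sra_subst 1 w (of 0 ^ l)
    (Subgroup.zpow_mem _ (Subgroup.subset_closure (Set.mem_image_of_mem _ (show (0 : Fin 2) ∈ {i : Fin 2 | i ≠ 1} by simp))) _) hw.1 h1
    (by rw [hmk]; exact zpow_ne_one hw.1 h0 hl) d (by
      rcases hd with hd | hd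
      · exact Or.inl hd
      · right
        rw [hmk, _root_.map_zpow]
        exact zpow_ne_one_mult hd hl)
  exact ⟨h2, fun h => hw.2 (isCyclic_of_inj e he h)⟩

theorem closed_pow (l : ℤ) (hl : l ≠ 0) (w : FreeGroup (Fin 2))
    (hw : SRA (PresentedGroup ({w} : Set (FreeGroup (Fin 2)))) ∧
      ¬ IsCyclic (PresentedGroup ({w} : Set (FreeGroup (Fin 2))))) :
    SRA (PresentedGroup ({powSubst 1 l w} : Set (FreeGroup (Fin 2)))) ∧
      ¬ IsCyclic (PresentedGroup ({powSubst 1 l w} : Set (FreeGroup (Fin 2)))) := by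
  obtain ⟨h2, e, he⟩ := sra_powSubst 1 w l hl hw.1 (of_ne_one_of_not_isCyclic w hw.2 1)
  exact ⟨h2, fun h => hw.2 (isCyclic_of_inj e he h)⟩

theorem Fam.sra' {w : FreeGroup (Fin 2)} (hw : Fam w) :
    SRA (PresentedGroup ({w} : Set (FreeGroup (Fin 2)))) ∧
      ¬ IsCyclic (PresentedGroup ({w} : Set (FreeGroup (Fin 2)))) := by
  induction hw with
  | bs m n hm hn => exact sra_bs m n hm hn
  | aut θ w _ ih => exact closed_aut θ w ih
  | conj l hl w _ ih => exact closed_conj l hl w ih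
  | pow l hl w _ ih => exact closed_pow l hl w ih

theorem Fam.sra {w : FreeGroup (Fin 2)} (hw : Fam w) :
    SRA (PresentedGroup ({w} : Set (FreeGroup (Fin 2)))) := hw.sra'.1

/-- All groups `⟨a, t | s a^m s⁻¹ = a^n⟩`, `s = t^k a^l t^{-k}`, `k, l, m, n ≠ 0`. -/
theorem fam_brunner (k l m n : ℤ) (hk : k ≠ 0) (hl : l ≠ 0) (hm : m ≠ 0) (hn : n ≠ 0) :
    Fam ((of 1 ^ k * of 0 ^ l * (of 1 ^ k)⁻¹) * of 0 ^ m * (of 1 ^ k * of 0 ^ l * (of 1 ^ k)⁻¹)⁻¹
      * (of 0 ^ n)⁻¹) := by
  have h := Fam.pow k hk _ (Fam.conj l hl _ (Fam.bs m n hm hn))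
  have e : powSubst 1 k (subst 1 (of 0 ^ l) (bsWord m n)) =
      (of 1 ^ k * of 0 ^ l * (of 1 ^ k)⁻¹) * of 0 ^ m * (of 1 ^ k * of 0 ^ l * (of 1 ^ k)⁻¹)⁻¹
      * (of 0 ^ n)⁻¹ := by
    simp [bsWord, subst, powSubst, _root_.map_zpow]
  rwa [e] at h

end Pool.Agent.H63RA
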