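import Pool.Agent.Lib.H63RA.Amen

/-! CHUNK R: extraction of roots in amenable groups, keeping a homomorphism to `ℤ`. -/

set_option autoImplicit false

namespace Pool.Agent.H63RA

/-- the shift action -/
def rtShift (n : ℕ) (Λ : Type) [Group Λ] : Multiplicative (ZMod n) →* MulAut (ZMod n → Λ) where
  toFun s :=
    { toFun := fun f i => f (i - Multiplicative.toAdd s)
      invFun := fun f i => f (i + Multiplicative.toAdd s)
      left_inv := fun f => by funext i; simp
      right_inv := fun f => by funext i; simp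
      map_mul' := fun f g => rfl }
  map_one' := by ext f i; simp
  map_mul' s t := by
    ext f i
    simp [sub_sub]

theorem rtShift_apply (n : ℕ) (Λ : Type) [Group Λ] (s : Multiplicative (ZMod n))
    (f : ZMod n → Λ) (i : ZMod n) : rtShift n Λ s f i = f (i - Multiplicative.toAdd s) := rfl

/-- the wreath product -/
abbrev RtW (n : ℕ) (Λ : Type) [Group Λ] : Type :=
  (ZMod n → Λ) ⋊[rtShift n Λ] Multiplicative (ZMod n)

/-- the sum of the values -/
def rtD {n : ℕ} [NeZero n] {Λ : Type} [Group Λ] (d : Λ →* Multiplicative ℤ) :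
    RtW n Λ →* Multiplicative ℤ where
  toFun w := ∏ i, d (w.left i)
  map_one' := by simp
  map_mul' w v := by
    simp only [SemidirectProduct.mul_left, Pi.mul_apply, map_mul, Finset.prod_mul_distrib]
    congr 1
    exact Fintype.prod_equiv (Equiv.subRight (Multiplicative.toAdd w.right)) _ _
      (fun i => by simp [rtShift_apply])

theorem rtD_apply {n : ℕ} [NeZero n] {Λ : Type} [Group Λ] (d : Λ →* Multiplicative ℤ)
    (w : RtW n Λ) : rtD d w = ∏ i, d (w.left i) := rfl

/-- the subgroup where the sum is divisible by `n` -/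
def rtS {n : ℕ} [NeZero n] {Λ : Type} [Group Λ] (d : Λ →* Multiplicative ℤ) :
    Subgroup (RtW n Λ) where
  carrier := {w | (n : ℤ) ∣ Multiplicative.toAdd (rtD d w)}
  mul_mem' := by
    intro a b ha hb
    simp only [Set.mem_setOf_eq, map_mul, toAdd_mul] at *
    exact dvd_add ha hb
  one_mem' := by simp
  inv_mem' := by
    intro a ha
    simp only [Set.mem_setOf_eq, map_inv, toAdd_inv, dvd_neg] at *
    exact ha

/-- the divided sum -/
def rtd {n : ℕ} [NeZero n] {Λ : Type} [Group Λ] (d : Λ →* Multiplicative ℤ) :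
    rtS (n := n) d →* Multiplicative ℤ where
  toFun w := Multiplicative.ofAdd (Multiplicative.toAdd (rtD d (w : RtW n Λ)) / (n : ℤ))
  map_one' := by simp
  map_mul' a b := by
    have ha : (n : ℤ) ∣ Multiplicative.toAdd (rtD d (a : RtW n Λ)) := a.2
    simp only [Subgroup.coe_mul, map_mul, toAdd_mul]
    rw [Int.add_ediv_of_dvd_left ha, ofAdd_add]

theorem rt_pow {n : ℕ} [NeZero n] {Λ : Type} [Group Λ] (x : Λ) (k : ℕ) (hk : k ≤ n) :
    ((⟨Pi.mulSingle 0 x, Multiplicative.ofAdd 1⟩ : RtW n Λ) ^ k) =
      ⟨fun i => if i.val < k then x else 1, Multiplicative.ofAdd (k : ZMod n)⟩ := by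
  induction k with
  | zero =>
    simp only [pow_zero, not_lt_zero', if_false, Nat.cast_zero, ofAdd_zero]
    rfl
  | succ k ih =>
    rw [pow_succ, ih (by omega)]
    apply SemidirectProduct.ext
    · funext i
      simp only [SemidirectProduct.mul_left, Pi.mul_apply, rtShift_apply, toAdd_ofAdd,
        Pi.mulSingle_apply, sub_eq_zero]
      have hkn : ((k : ZMod n)).val = k := ZMod.val_natCast_of_lt (by omega)
      by_cases h1 : i = (k : ZMod n)
      · subst h1
        simp [hkn]
      · have h2 : i.val ≠ k := by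
          intro h
          apply h1
          rw [← h, ZMod.natCast_zmod_val]
        rw [if_neg h1, mul_one]
        have h3 : i.val < k ↔ i.val < k + 1 := by omega
        simp only [h3]
    · simp only [SemidirectProduct.mul_right, Nat.cast_succ, ofAdd_add]

/-- Wreath product: in `(ZMod n → Λ) ⋊ ZMod n` (shift action) the element
`z = (Pi.mulSingle 0 x, 1)` satisfies `z ^ n = (const x, 0)`. The group `Λ'` is the subgroup of
all `(f, s)` for which `n` divides `∑ i, d (f i)`; `d' (f, s) = (∑ i, d (f i)) / n`. -/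
theorem exists_root {Λ : Type} [Group Λ] (hΛ : Amen Λ) (d : Λ →* Multiplicative ℤ) (x : Λ)
    (n : ℕ) (hn : 0 < n) (m : ℤ) (hx : d x = Multiplicative.ofAdd (n * m)) :
    ∃ (Λ' : Type) (_ : Group Λ') (ι : Λ →* Λ') (d' : Λ' →* Multiplicative ℤ) (z : Λ'),
      Amen Λ' ∧ Function.Injective ι ∧ (∀ g, d' (ι g) = d g) ∧ z ^ n = ι x ∧
      d' z = Multiplicative.ofAdd m := by
  have : NeZero n := ⟨hn.ne'⟩
  have hn0 : (n : ℤ) ≠ 0 := by exact_mod_cast hn.ne'
  let c : Λ →* RtW n Λ := 
    { toFun := fun g => ⟨fun _ => g, 1⟩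
      map_one' := rfl
      map_mul' := fun a b => by
        apply SemidirectProduct.ext
        · funext i
          simp [SemidirectProduct.mul_left]
        · simp }
  have hcD : ∀ g, Multiplicative.toAdd (rtD d (c g)) = n * Multiplicative.toAdd (d g) := by
    intro g
    rw [rtD_apply]
    simp only [c, MonoidHom.coe_mk, OneHom.coe_mk, Finset.prod_const, Finset.card_univ,
      ZMod.card, toAdd_pow]
    simp
  let ι : Λ →* rtS (n := n) d := c.codRestrict (rtS (n := n) d) (fun g => by
    show (n : ℤ) ∣ Multiplicative.toAdd (rtD d (c g))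
    rw [hcD]
    exact dvd_mul_right _ _)
  have hzD : rtD d (⟨Pi.mulSingle 0 x, Multiplicative.ofAdd 1⟩ : RtW n Λ) =
      Multiplicative.ofAdd (n * m) := by
    rw [rtD_apply, Finset.prod_eq_single 0]
    · simpa using hx
    · intro b _ hb
      simp [hb]
    · simp
  let z : rtS (n := n) d := ⟨⟨Pi.mulSingle 0 x, Multiplicative.ofAdd 1⟩, by
    show (n : ℤ) ∣ Multiplicative.toAdd (rtD d _)
    rw [hzD]
    exact dvd_mul_right _ _⟩
  refine ⟨rtS (n := n) d, inferInstance, ι, rtd d, z, ?_, ?_, ?_, ?_, ?_⟩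
  · refine Amen.of_injective (Amen.semidirect (rtShift n Λ) (Amen.pi hΛ) Amen.of_comm)
      (rtS (n := n) d).subtype (Subgroup.subtype_injective _)
  · intro a b hab
    have h1 : c a = c b := congrArg Subtype.val hab
    have h2 := congrArg (fun w : RtW n Λ => w.left 0) h1
    exact h2
  · intro g
    show Multiplicative.ofAdd (Multiplicative.toAdd (rtD d (c g)) / (n : ℤ)) = d g
    rw [hcD, Int.mul_ediv_cancel_left _ hn0]
    rfl
  · apply Subtype.ext
    show ((⟨Pi.mulSingle 0 x, Multiplicative.ofAdd 1⟩ : RtW n Λ) ^ n) = c x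
    rw [rt_pow x n le_rfl]
    apply SemidirectProduct.ext
    · funext i
      simp [c, ZMod.val_lt i]
    · simp [c]
  · show Multiplicative.ofAdd (Multiplicative.toAdd (rtD d _) / (n : ℤ)) = _
    rw [hzD, toAdd_ofAdd, Int.mul_ediv_cancel_left _ hn0]

end Pool.Agent.H63RA
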